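import Pool.Agent.Work.MP_6bf1e5_an.B.Defs

/-!
Helical Galerkin projections of the Navier-Stokes system with general dissipation.
-/

namespace Pool.Agent.Work.MP_6bf1e5_an.B

noncomputable section

/-- For `s = 1` or `s = -1`, the symbol `(curl² + s Λ curl) / (2 Λ²)` of the orthogonal projection
onto the divergence-free modes with `curl = s Λ`; it vanishes for `k = 0`. -/
def hP (s : ℝ) (k : Z3) (v : C3) : C3 :=
  (((2 * ax k ^ 2)⁻¹ : ℝ) : ℂ) • (curlS k (curlS k v) + ((s * ax k : ℝ) : ℂ) • curlS k v)

/-- The transport term `(v·∇) v`. -/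
def transport (v : R3 → R3) (x : R3) : R3 := fun i => ∑ j, v x j * pd j (fun y => v y i) x

/-- The right-hand side of the projected system: the components of the transport term of helicity
`s` outside `S1` and of helicity `-s` outside `S2` (so that they cancel against the left-hand
side), minus the dissipation with symbol `d1` on helicity `s` and `d2` on helicity `-s`. -/
def model (s : ℝ) (d1 d2 : Z3 → ℝ) (S1 S2 : Set Z3) (v : R3 → R3) (x : R3) : R3 := fun i =>
  (∑' k, ek k x *
    (S1ᶜ.indicator (fun k => hP s k (fc (transport v) k)) k +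
      S2ᶜ.indicator (fun k => hP (-s) k (fc (transport v) k)) k -
      (d1 k : ℂ) • hP s k (fc v k) - (d2 k : ℂ) • hP (-s) k (fc v k)) i).re

end

end Pool.Agent.Work.MP_6bf1e5_an.B
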