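import Pool.Agent.Work.MP_6bf1e5_an.B.SparseEx
import Pool.Agent.Work.MP_6bf1e5_an.G.Defs

/-!
The critical estimate for fields whose modes of one helicity lie in a set satisfying a weighted
potential bound, and algebra of the helical projections.
-/

open Set Complex Filter Topology MeasureTheory
open scoped InnerProductSpace ComplexConjugate

namespace Pool.Agent.Work.MP_6bf1e5_an.B

noncomputable section

lemma helS_ineq {ν β s W : ℝ} {d1 d2 : Z3 → ℝ} {S : Set Z3} (hA : Diss ν (AH d1 d2 s))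
    (hs : |s| = 1) (hW0 : 0 ≤ W)
    (l1 : ∀ k, ν * ax k ^ (2 * β) ≤ d1 k) (l2 : ∀ k, ν * ax k ^ (2 * β) ≤ d2 k)
    (hW : ∀ q, q ≠ 0 → ∀ F : Finset Z3,
      ∑ p ∈ F, sk (S.indicator fun k => ax k ^ 4 / (d1 k * Real.log (Real.exp 1 + ax k))) q p ≤
        W * ax q ^ (2 * (1 / 2 + β))) :
    ∃ K : ℝ, 0 ≤ K ∧ ∀ a : Z3 → C3, Rapid a → DivFree a → IsReal a →
      (∀ k, k ≠ 0 → k ∉ S → hp s k (a k) = 0) →
      2 * QQ La a (FF (AH d1 d2 s) a) + ν / 2 * hq (1 / 2 + β) a ≤
        K * (2 * QQ I1 a fun k => AH d1 d2 s k (a k)) *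
          ((Real.exp 1 + QQ La a a) * Real.log (Real.exp 1 + QQ La a a)) := by
  have hν := hA.pos
  have hs' : |(-s)| = 1 := by rwa [abs_neg]
  set l := 4 * W / ν + 1 with hl
  have l0 : 0 < l := by positivity
  set κ := 8 * l + 1 with hκ
  have κ1 : 1 ≤ κ := by linarith only [l0]
  have κ2 := Real.log_nonneg κ1
  refine ⟨κ * (1 + Real.log κ), by positivity, fun a ha da ra hS => ?_⟩
  rw [QQ_FF hA mult_La (-s) 0 ha da ra, QQ_La]
  have rt := mult_La.rapid_tf (-s) 0 ha
  have e1 : ∀ k, LP k (tf La (-s) 0 a k) = tf La (-s) 0 a k := fun k =>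
    LP_of_div (by rw [tf_La, dt_smul_left, dt_hp s (da k), mul_zero])
  have p0 : ∀ k, 0 ≤ ν * ax k ^ (2 * β) := fun k =>
    mul_nonneg hν.le (Real.rpow_nonneg (ax_nonneg k) _)
  have d0 : ∀ k, 0 ≤ d1 k := fun k => (p0 k).trans (l1 k)
  have lk : ∀ k, 1 ≤ Real.log (Real.exp 1 + ax k) := fun k => one_le_log_e_add (ax_nonneg k)
  set G : Z3 → ℝ := fun k => 4 * (Real.log (Real.exp 1 + ax k) * (d1 k * he s k (a k))) with hG
  have b1 : ∀ k, 0 ≤ d1 k * he s k (a k) := fun k => mul_nonneg (d0 k) (he_nonneg hs k _)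
  have b2 : ∀ k, 0 ≤ d2 k * he (-s) k (a k) := fun k =>
    mul_nonneg ((p0 k).trans (l2 k)) (he_nonneg hs' k _)
  have G0 : ∀ k, 0 ≤ G k := fun k => by have := lk k; have := b1 k; positivity
  obtain ⟨Cg, n, hCg, hg⟩ := hA.growth
  have rA := ha.map hCg hg
  have sL := (mult_La.summable ha rA).hasSum
  have sI := (mult_I1.summable ha rA).hasSum
  have fen : ∀ z : ℝ, 0 ≤ z → ∀ k, z * (Real.log (Real.exp 1 + ax k) * (d1 k * he s k (a k))) ≤
      (ax k + z * Real.log (Real.exp 1 + z)) * (d1 k * he s k (a k)) := fun z hz k => by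
    rw [← mul_assoc]
    exact mul_le_mul_of_nonneg_right (fenchel (ax_nonneg k) hz) (b1 k)
  have sG : Summable G := by
    refine Summable.of_nonneg_of_le G0 (fun k => ?_)
      ((sL.summable.add (sI.summable.mul_left (1 * Real.log (Real.exp 1 + 1)))).mul_left 4)
    have h1 := fen 1 zero_le_one k
    have h2 := one_le_log_e_add zero_le_one
    have h3 := mul_nonneg (ax_nonneg k) (b2 k)
    have h4 := mul_nonneg (zero_le_one.trans h2) (b2 k)
    simp only [hG, La, I1, re_inner_scalar, re_inner_AH]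
    linarith only [h1, h3, h4]
  have h1 := tri_sparse ha rt.LP da ra (mult_La.im_tf _ _ da)
    (κ := S.indicator fun k => ax k ^ 4 / (d1 k * Real.log (Real.exp 1 + ax k))) (G := G)
    (fun k => indicator_nonneg (fun k _ => by have := lk k; have := d0 k; positivity) k) G0 sG
    (fun k hk => by
      have k0 := ax_pos hk
      rw [e1, tf_La]
      by_cases h : k ∈ S
      · have := lk k
        have dk : 0 < d1 k := lt_of_lt_of_le (by positivity) (l1 k)
        rw [indicator_of_mem h, norm_smul, Complex.norm_real, Real.norm_of_nonneg (by positivity), hG]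
        calc _ = 4 * ax k ^ 4 * ‖hp s k (a k)‖ ^ 2 := by ring
          _ ≤ 4 * ax k ^ 4 * he s k (a k) := by gcongr; exact norm_hp_sq_le hs k _
          _ = _ := by field_simp
      · simp [h, hS k hk h]) l0 hW
  set y := hq (1 / 2) a
  have y0 : 0 ≤ y := hq_nonneg _ _
  set D := hq (1 / 2 + β) a with hD
  have D0 : 0 ≤ D := hq_nonneg _ _
  set z := 8 * l * y with hz
  have z0 : 0 ≤ z := by (clear * - hW0 hν y0; positivity)
  have lz := one_le_log_e_add z0
  have h2 : 2 * l * y * (∑' k, G k) + ν * D ≤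
      2 * QQ La a (fun k => AH d1 d2 s k (a k)) +
        z * Real.log (Real.exp 1 + z) * QQ I1 a fun k => AH d1 d2 s k (a k) := by
    refine hasSum_le (fun k => ?_)
      ((sG.hasSum.mul_left _).add ((ha.summable_ht _).hasSum.mul_left _))
      ((sL.mul_left _).add (sI.mul_left _))
    simp only [La, I1, re_inner_scalar, re_inner_AH, one_mul]
    have c2 := fen z z0 k
    have c0 : ν * ht (1 / 2 + β) a k ≤ ax k * (d1 k * he s k (a k) + d2 k * he (-s) k (a k)) := by
      unfold ht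
      split_ifs with hk
      · simp [hk]
      have k0 := ax_pos hk
      have e3 : ax k ^ (2 * (1 / 2 + β)) = ax k * ax k ^ (2 * β) := by
        rw [mul_add, Real.rpow_add k0]; norm_num
      rw [e3, ← he_add s k (a k)]
      have c3 := mul_le_mul_of_nonneg_left
        (mul_le_mul_of_nonneg_right (l1 k) (he_nonneg hs k (a k))) k0.le
      have c4 := mul_le_mul_of_nonneg_left
        (mul_le_mul_of_nonneg_right (l2 k) (he_nonneg hs' k (a k))) k0.le
      linarith only [c3, c4]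
    have c5 : 0 ≤ z * Real.log (Real.exp 1 + z) * (d2 k * he (-s) k (a k)) := by
      have := b2 k; (clear * - hW0 hν y0 lz this; positivity)
    have c6 := mul_nonneg (ax_nonneg k) (b2 k)
    have c7 : 2 * l * y * G k = z * (Real.log (Real.exp 1 + ax k) * (d1 k * he s k (a k))) := by
      simp only [hG, hz]; ring
    linarith only [c2, c0, c5, c6]
  have h4 : W * D / l ≤ ν / 4 * D := by
    rw [div_le_iff₀ l0]
    have : ν / 4 * D * l = W * D + ν / 4 * D := by rw [hl]; field_simp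
    rw [this]
    have : 0 ≤ ν / 4 * D := by positivity
    linarith only [this]
  have E0 := QQ_I1_nonneg hA da
  set E := QQ I1 a fun k => AH d1 d2 s k (a k)
  have e0 := Real.exp_pos 1
  have ly := one_le_log_e_add y0
  have h6 := mul_le_mul_of_nonneg_right (llog_le κ1 y0 z0 (by rw [hz, hκ]; linarith only [y0])) E0
  have h7 : 0 ≤ κ * (1 + Real.log κ) * ((Real.exp 1 + y) * Real.log (Real.exp 1 + y)) * E := by
    (clear * - hW0 hν κ2 y0 E0 ly; positivity)
  have h8 := neg_abs_le (TT a a fun k => LP k (tf La (-s) 0 a k)).re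
  linarith only [h1, h4, h2, h6, h7, h8]

/-- The helical projection as a linear map. -/
def hPL (s : ℝ) (k : Z3) : C3 →L[ℂ] C3 :=
  (((2 * ax k ^ 2)⁻¹ : ℝ) : ℂ) • ((curlL k).comp (curlL k) + ((s * ax k : ℝ) : ℂ) • curlL k)

lemma hPL_apply (s : ℝ) (k : Z3) (v : C3) : hPL s k v = hP s k v := rfl

lemma hP_zero (s : ℝ) (v : C3) : hP s 0 v = 0 := by simp [hP]

lemma hP_sym (s : ℝ) (k : Z3) (u v : C3) : ⟪hP s k u, v⟫_ℂ = ⟪u, hP s k v⟫_ℂ := by
  simp only [hP, inner_smul_left, inner_smul_right, inner_add_left, inner_add_right, inner_curlS,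
    Complex.conj_ofReal]

lemma dt_hP (s : ℝ) (k : Z3) (v : C3) : dt (hP s k v) k = 0 := by
  rw [hP, dt_smul_left, dt_add_left, dt_smul_left, dt_curlS, dt_curlS]; simp

lemma hP_cj (s : ℝ) (k : Z3) (v : C3) : hP s (-k) (cj v) = cj (hP s k v) := by
  rw [hP, hP, cj_smul, map_add, cj_smul, curlS_cj, curlS_cj, ax_neg, Complex.conj_ofReal,
    Complex.conj_ofReal]

lemma hP_of_div (s : ℝ) {k : Z3} (hk : k ≠ 0) {v : C3} (h : dt v k = 0) : hP s k v = hp s k v := by
  have : ((ax k : ℝ) : ℂ) ≠ 0 := by exact_mod_cast (ax_pos hk).ne'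
  rw [hP, hp, curlS_curlS h, smul_add, smul_add, smul_smul, smul_smul, smul_smul]
  push_cast
  congr 2 <;> field_simp

lemma curl_hP {s : ℝ} (hs : s * s = 1) (k : Z3) (v : C3) :
    curlS k (hP s k v) = ((s * ax k : ℝ) : ℂ) • hP s k v := by
  have hs' : (s : ℂ) * s = 1 := by exact_mod_cast hs
  rw [hP, curlS_smul, curlS_add, curlS_smul, curlS_curlS (dt_curlS k v)]
  push_cast
  linear_combination (norm := module)
    (-((2 * (ax k : ℂ) ^ 2)⁻¹ * (ax k : ℂ) ^ 2)) • congrArg (· • curlS k v) hs'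

lemma hP_hP (s : ℝ) {s' : ℝ} (hs : s' * s' = 1) (k : Z3) (v : C3) :
    hP s k (hP s' k v) = (((1 + s * s') / 2 : ℝ) : ℂ) • hP s' k v := by
  by_cases hk : k = 0
  · simp [hk, hP_zero]
  have : ((ax k : ℝ) : ℂ) ≠ 0 := by exact_mod_cast (ax_pos hk).ne'
  rw [hP_of_div s hk (dt_hP s' k v), hp, curl_hP hs, smul_smul]
  nth_rw 1 [← one_smul ℂ (hP s' k v)]
  rw [← add_smul, smul_smul]
  congr 1
  push_cast
  field_simp

lemma curlS_cxi (k : Z3) : curlS k (cxi k) = 0 := by
  have h := norm_curlS_sq k (cxi k)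
  rw [dt_cxi, norm_cxi, Complex.norm_real, Real.norm_of_nonneg (sq_nonneg _)] at h
  exact norm_eq_zero.mp (pow_eq_zero_iff two_ne_zero |>.mp (by linarith))

lemma hP_add (s : ℝ) {k : Z3} (hk : k ≠ 0) (v : C3) : hP s k v + hP (-s) k v = LP k v := by
  have e : curlS k (LP k v) = curlS k v := by
    rw [LP_apply, sub_eq_add_neg, ← neg_smul, curlS_add, curlS_smul, curlS_cxi]; simp
  have e2 : ∀ s, hP s k v = hp s k (LP k v) := fun s => by
    rw [← hP_of_div s hk (dt_LP k v), hP, hP, e]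
  rw [e2, e2, hp, hp, ← smul_add]
  push_cast
  rw [neg_div, neg_smul]
  module

end

end Pool.Agent.Work.MP_6bf1e5_an.B
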