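import Pool.Agent.Work.MP_6bf1e5_an.G.Energy
import Pool.Agent.Work.MP_6bf1e5_an.G.Ineq

/-!
Global regularity of the helical Galerkin projections.
-/

open Set Complex Filter Topology MeasureTheory
open scoped InnerProductSpace ComplexConjugate ContDiff

namespace Pool.Agent.Work.MP_6bf1e5_an.B.G

noncomputable section

/-- The characteristic function. -/
def ch (S : Set Z3) (k : Z3) : ℝ := S.indicator 1 k

lemma ch_mem {S : Set Z3} {k : Z3} (h : k ∈ S) : ch S k = 1 := by simp [ch, h]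

lemma ch_not {S : Set Z3} {k : Z3} (h : k ∉ S) : ch S k = 0 := by simp [ch, h]

/-- The projection onto the retained modes. -/
def PS (s : ℝ) (S1 S2 : Set Z3) (k : Z3) : C3 →L[ℂ] C3 :=
  if k = 0 then ContinuousLinearMap.id ℂ C3 else (ch S1 k : ℂ) • hPL s k + (ch S2 k : ℂ) • hPL (-s) k

variable {s : ℝ} {S1 S2 : Set Z3}

lemma PS_zero (v : C3) : PS s S1 S2 0 v = v := by simp [PS]

lemma PS_apply {k : Z3} (hk : k ≠ 0) (v : C3) :
    PS s S1 S2 k v = (ch S1 k : ℂ) • hP s k v + (ch S2 k : ℂ) • hP (-s) k v := by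
  rw [PS, if_neg hk]; rfl

lemma hP_comb (hs : s * s = 1) (k : Z3) (v : C3) (x y : ℂ) :
    hP s k (x • hP s k v + y • hP (-s) k v) = x • hP s k v := by
  rw [← hPL_apply, map_add, map_smul, map_smul, hPL_apply, hPL_apply, hP_hP s hs,
    hP_hP s (s' := -s) (by linarith), hs, show (1 + s * -s) / 2 = 0 by linarith]
  simp

lemma hP_comb' (hs : s * s = 1) (k : Z3) (v : C3) (x y : ℂ) :
    hP (-s) k (x • hP s k v + y • hP (-s) k v) = y • hP (-s) k v := by
  have := hP_comb (s := -s) (by linarith) k v y x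
  rwa [neg_neg, add_comm] at this

/-- The projection with its properties. -/
@[reducible] def pj (hs : s * s = 1) (h1 : ∀ k, -k ∈ S1 ↔ k ∈ S1) (h2 : ∀ k, -k ∈ S2 ↔ k ∈ S2) : PJ where
  P := PS s S1 S2
  sym k u v := by
    by_cases hk : k = 0
    · simp [hk, PS_zero]
    · simp only [PS_apply hk, inner_add_left, inner_add_right, inner_smul_left, inner_smul_right,
        hP_sym, Complex.conj_ofReal]
  idem k v := by
    by_cases hk : k = 0
    · simp [hk, PS_zero]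
    · rw [PS_apply hk v, PS_apply hk, hP_comb hs, hP_comb' hs]
      by_cases a : k ∈ S1 <;> by_cases b : k ∈ S2 <;> simp [ch_mem, ch_not, a, b]
  div k v := by
    by_cases hk : k = 0
    · simp [hk]
    · rw [PS_apply hk, dt_add_left, dt_smul_left, dt_smul_left, dt_hP, dt_hP]; simp
  real k v := by
    by_cases hk : k = 0
    · simp [hk, PS_zero]
    · have e1 : ch S1 (-k) = ch S1 k := by
        by_cases a : k ∈ S1 <;> simp [ch_mem, ch_not, a, h1]
      have e2 : ch S2 (-k) = ch S2 k := by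
        by_cases a : k ∈ S2 <;> simp [ch_mem, ch_not, a, h2]
      rw [PS_apply hk, PS_apply (neg_ne_zero.mpr hk), map_add, cj_smul, cj_smul, hP_cj, hP_cj,
        e1, e2, Complex.conj_ofReal, Complex.conj_ofReal]

lemma PS_fix (hs : s * s = 1) (k : Z3) (v : C3) : PS s S1 S2 k v = v ↔
    dt v k = 0 ∧ (k ∉ S1 → hP s k v = 0) ∧ (k ∉ S2 → hP (-s) k v = 0) := by
  by_cases hk : k = 0
  · simp [hk, PS_zero, hP_zero]
  rw [PS_apply hk]
  constructor
  · intro h
    refine ⟨?_, fun a => ?_, fun a => ?_⟩ <;> rw [← h]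
    · rw [dt_add_left, dt_smul_left, dt_smul_left, dt_hP, dt_hP]; simp
    · rw [hP_comb hs, ch_not a]; simp
    · rw [hP_comb' hs, ch_not a]; simp
  · rintro ⟨h0, a, b⟩
    have := hP_add s hk v
    rw [LP_of_div h0] at this
    refine Eq.trans ?_ this
    congr 1
    · by_cases c : k ∈ S1 <;> simp [ch_mem, ch_not, c, a]
    · by_cases c : k ∈ S2 <;> simp [ch_mem, ch_not, c, b]

/-- A symbol with the zero mode removed. -/
def cz (d : Z3 → ℝ) (k : Z3) : ℝ := if k = 0 then 0 else d k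

lemma AH_cz (d1 d2 : Z3 → ℝ) (s : ℝ) {k : Z3} {v : C3} (h : dt v k = 0) :
    AH (cz d1) (cz d2) s k v = (d1 k : ℂ) • hP s k v + (d2 k : ℂ) • hP (-s) k v := by
  by_cases hk : k = 0
  · simp [hk, AH_apply, cz, hP_zero]
  · rw [AH_apply, hP_of_div _ hk h, hP_of_div _ hk h, cz, cz, if_neg hk, if_neg hk]

theorem decimated {ν β C K : ℝ} {m : ℕ} {d1 d2 : Z3 → ℝ} (hν : 0 < ν) (hβ : 1 ≤ β)
    (hs : s = 1 ∨ s = -1) (h1 : ∀ k, -k ∈ S1 ↔ k ∈ S1) (h2 : ∀ k, -k ∈ S2 ↔ k ∈ S2)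
    (e1 : ∀ k, d1 (-k) = d1 k) (e2 : ∀ k, d2 (-k) = d2 k)
    (g1 : ∀ k, d1 k ≤ C * (1 + ax k) ^ m) (g2 : ∀ k, d2 k ≤ C * (1 + ax k) ^ m)
    (l1 : ∀ k, ν * ax k ^ (2 * β) ≤ d1 k) (l2 : ∀ k, ν * ax k ^ (2 * β) ≤ d2 k)
    (H : ∀ (q : Z3) (F : Finset Z3), (∀ k ∈ F, k ∈ S1 ∧ ax (k - q) ≤ ax q) →
      ∑ k ∈ F, ax k ^ 4 / (d1 k * Real.log (Real.exp 1 + ax k) * ax (k - q)) ≤
        K * ax q ^ (1 + 2 * β))
    {u0 : R3 → R3} (h0 : IsData u0) (a1 : ∀ k, k ∉ S1 → hP s k (fc u0 k) = 0)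
    (a2 : ∀ k, k ∉ S2 → hP (-s) k (fc u0 k) = 0) :
    ∃ u p, IsSolutionOn (model s d1 d2 S1 S2) u0 (Ici 0) u p ∧ ∀ t, 0 ≤ t →
      (∀ k, k ∉ S1 → hP s k (fc (fun x => u x t) k) = 0) ∧
        ∀ k, k ∉ S2 → hP (-s) k (fc (fun x => u x t) k) = 0 := by
  classical
  have ss : s * s = 1 := by rcases hs with h | h <;> simp [h]
  have sa : |s| = 1 := by rcases hs with h | h <;> simp [h]
  let _ : PJ := pj ss h1 h2
  have fx : ∀ k v, Fx v k ↔ dt v k = 0 ∧ (k ∉ S1 → hP s k v = 0) ∧ (k ∉ S2 → hP (-s) k v = 0) :=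
    PS_fix ss
  have p0 : ∀ k, 0 ≤ ν * ax k ^ (2 * β) := fun k =>
    mul_nonneg hν.le (Real.rpow_nonneg (ax_nonneg k) _)
  have hC : 0 ≤ C := by simpa using ((p0 0).trans (l1 0)).trans (g1 0)
  have ce : ∀ d : Z3 → ℝ, (∀ k, d (-k) = d k) → ∀ k, cz d (-k) = cz d k := fun d h k => by
    simp [cz, h]
  have cg : ∀ d : Z3 → ℝ, (∀ k, d k ≤ C * (1 + ax k) ^ m) → ∀ k, cz d k ≤ C * w k ^ m :=
    fun d h k => by
      unfold cz
      split_ifs
      · have := w_pos k; positivity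
      · exact h k
  have cl : ∀ d : Z3 → ℝ, (∀ k, ν * ax k ^ (2 * β) ≤ d k) → ∀ k, ν * ax k ^ (2 * β) ≤ cz d k :=
    fun d h k => by
      unfold cz
      split_ifs with hk
      · rw [hk, ax_zero, Real.zero_rpow (by linarith), mul_zero]
      · exact h k
  have hB := diss_AH hν hβ sa (ce _ e1) (ce _ e2) (cg _ g1) (cg _ g2) (cl _ l1) (cl _ l2)
  set A := AH (cz d1) (cz d2) s with hAdef
  have hA : Diss ν A := by
    refine ⟨hν, fun k v h => hB.coer k v h.dt, hB.growth, fun k v h => ?_, hB.real⟩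
    obtain ⟨b0, b1, b2⟩ := (fx k v).mp h
    refine (fx k _).mpr ⟨hB.div k v b0, fun c => ?_, fun c => ?_⟩
    · rw [hAdef, AH_cz _ _ _ b0, hP_comb ss, b1 c, smul_zero]
    · rw [hAdef, AH_cz _ _ _ b0, hP_comb' ss, b2 c, smul_zero]
  obtain ⟨K', K0, hK⟩ := helS_ineq (S := S1) (W := max K 0) hB sa (le_max_right _ _) (cl _ l1)
    (cl _ l2) (fun q hq F => by
      have h := H q ((F.filter fun p => ax p ≤ ax q ∧ p + q ∈ S1).image (· + q)) (by
        intro k hk
        obtain ⟨p, hp, rfl⟩ := Finset.mem_image.mp hk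
        have := (Finset.mem_filter.mp hp).2
        exact ⟨this.2, by simpa using this.1⟩)
      rw [Finset.sum_image fun _ _ _ _ h => add_right_cancel h, Finset.sum_filter] at h
      rw [show 2 * (1 / 2 + β) = 1 + 2 * β by ring]
      refine le_trans (le_of_eq (Finset.sum_congr rfl fun p _ => ?_)) (h.trans
        (mul_le_mul_of_nonneg_right (le_max_left _ _) (Real.rpow_nonneg (ax_nonneg _) _)))
      unfold sk
      by_cases c1 : ax p ≤ ax q <;> by_cases c2 : p + q ∈ S1 <;> by_cases c3 : p + q = 0 <;>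
        simp [c1, c2, c3, cz, div_eq_mul_inv, mul_comm, mul_left_comm])
  obtain ⟨r0, r1, r2, r3⟩ := h0.fourier
  obtain ⟨a, a0, ha⟩ := hA.maximal (fun k => (fx k _).mpr ⟨r2 k, a1 k, a2 k⟩) r1 r0
  have ha' : ∀ T, IsSol A a 0 T := by
    rcases ha with ha | ⟨Ts, hTs, ha, hl⟩
    · exact ha
    obtain ⟨B1, B10, hB1⟩ := energy_bound hA hB (a 0)
    obtain ⟨B, B0, hBB⟩ := osgood (QQ La (a 0) (a 0)) (K' * B1) (by positivity)
    have n2 : 0 < ν / 2 := by positivity
    refine (hA.no_blowup hB (K := (ν / 2)⁻¹ * B) hTs (by positivity) ha hl fun T hT => ?_).elim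
    have sl := ha T hT.2
    have key := (hBB T _ _ (fun t => ν / 2 * hq (1 / 2 + β) (a t))
      (fun t => K' * (2 * QQ I1 (a t) fun k => A k (a t k))) hT.1 rfl
      (fun t ht => sl.hasDeriv_QQ hA mult_La ht)
      (sl.continuousOn_QQ_FF hA mult_La) (continuousOn_const.mul (sl.continuousOn_hq _))
      (fun t _ => QQ_La ▸ hq_nonneg _ _) (fun t _ => mul_nonneg n2.le (hq_nonneg _ _))
      (fun t ht => mul_nonneg K0 (mul_nonneg two_pos.le (QQ_I1_nonneg hB (sl.div t ht).toB)))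
      (fun t ht => by
        rw [QQ_La_eq (sl.div t ht)]
        refine hK _ (sl.rapid ht) (sl.div t ht).toB (sl.real t ht) fun k hk c => ?_
        obtain ⟨b0, b1, -⟩ := (fx k _).mp (sl.div t ht k)
        rw [← hP_of_div s hk b0, b1 c]) (by
        simp only [ENNReal.ofReal_mul K0]
        rw [lintegral_const_mul' _ _ ENNReal.ofReal_ne_top]
        gcongr
        exact (hB1 a T hT.1 rfl sl).2)).2
    rw [ENNReal.ofReal_mul (by positivity)]
    refine le_trans ?_ (mul_le_mul_right key _)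
    rw [← lintegral_const_mul' _ _ ENNReal.ofReal_ne_top]
    refine setLIntegral_mono' measurableSet_Ioo fun t ht => ?_
    rw [← ENNReal.ofReal_mul (by positivity), ← mul_assoc, inv_mul_cancel₀ n2.ne', one_mul]
    exact ENNReal.ofReal_le_ofReal ((sl.rapid (Ioo_subset_Icc_self ht)).hq_mono (by linarith only [hβ]))
  obtain ⟨u, p, hsum, hd, hsol⟩ := hA.classical (J := Ici 0) subset_rfl
    (fun t _ => ⟨t + 1, lt_add_one t, Icc_subset_Ici_self⟩) fun T _ => ha' T
  have fu : ∀ t, 0 ≤ t → (fc fun x => u x t) = a t := fun t ht =>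
    fc_of_hasSum ((ha' t).rapid ⟨ht, le_rfl⟩).summable_norm (hsum t ht)
  refine ⟨u, p, hsol _ _ (fun x => ?_) fun t ht x i => ?_, fun t ht => ?_⟩
  · funext i
    have h1 := hsum 0 (mem_Ici.mpr le_rfl) x i
    rw [a0] at h1
    exact_mod_cast h1.unique (r3 x i)
  · have tm : t ∈ Icc 0 t := ⟨ht, le_rfl⟩
    have rp := (ha' t).rapid tm
    have re := (ha' t).real t tm
    obtain ⟨M, hM⟩ := rp 1
    have rB := BB_real (hM.mono (Nat.zero_le 1)) hM re re
    have := hasSum_real (c := fun k => FF A (a t) k + B.LP k (BB (a t) (a t) k)) (fun n => by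
      obtain ⟨M1, hM1⟩ := (ha' t).FF_bd hA n
      obtain ⟨M2, hM2⟩ := rp (n + 1)
      exact ⟨_, (hM1 t tm).add (Bd_BB (hM2.mono (Nat.le_succ n)) hM2).LP⟩) (fun k => by
      simp only [FF, rB k, re k, LP_cj, B.LP_cj, hA.real, map_add, map_sub, map_neg]) x i
    convert this using 3
    have e : fc (transport fun y => u y t) = BB (a t) (a t) := by
      funext k
      rw [← fu t ht]
      exact fc_transport (hd t ht).smooth (hd t ht).periodic (hd t ht).smooth (hd t ht).periodic k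
    unfold model
    rw [e, fu t ht]
    congr 1
    refine tsum_congr fun k => ?_
    refine congrArg (fun v : C3 => ek k x * v i) ?_
    rw [FF, hAdef, AH_cz _ _ _ ((ha' t).div t tm k).dt]
    change _ = -(PS s S1 S2 k _) - _ + _
    by_cases hk : k = 0
    · simp [hk, PS_zero, hP_zero, B.LP_apply, Set.indicator]
    · rw [PS_apply hk, ← hP_add s hk]
      by_cases c1 : k ∈ S1 <;> by_cases c2 : k ∈ S2 <;> simp [c1, c2, ch_mem, ch_not] <;> abel
  · rw [fu t ht]
    exact ⟨fun k => ((fx k _).mp ((ha' t).div t ⟨ht, le_rfl⟩ k)).2.1,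
      fun k => ((fx k _).mp ((ha' t).div t ⟨ht, le_rfl⟩ k)).2.2⟩

end

end Pool.Agent.Work.MP_6bf1e5_an.B.G
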