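import Pool.Agent.Work.MP_6bf1e5_an.G.Final

/-!
Two families of models that satisfy the potential bound: ordinary viscosity with a sparse set of
modes of one helicity, and all modes with hyperdissipation on one helicity.
-/

open Set

namespace Pool.Agent.Work.MP_6bf1e5_an.B.G

noncomputable section

lemma ax_le_two {k q : Z3} (h : ax (k - q) ≤ ax q) : ax k ≤ 2 * ax q := by
  have := ax_add_le (k - q) q
  rw [sub_add_cancel] at this
  linarith

/-- Ordinary viscosity, sparse set. -/
theorem bound_of_sparse {ν K : ℝ} (hν : 0 < ν) {S : Set Z3} (h : Sparse K S) (q : Z3)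
    (F : Finset Z3) (hF : ∀ k ∈ F, k ∈ S ∧ ax (k - q) ≤ ax q) :
    ∑ k ∈ F, ax k ^ 4 / (ν * ax k ^ (2 * (1 : ℝ)) * Real.log (Real.exp 1 + ax k) * ax (k - q)) ≤
      6 * K / ν * ax q ^ (1 + 2 * (1 : ℝ)) := by
  have q0 := ax_nonneg q
  have l := one_le_log_e_add q0
  calc _ ≤ ∑ k ∈ F, 6 * ax q ^ 2 / Real.log (Real.exp 1 + ax q) / ν * (ax (k - q))⁻¹ := by
        refine Finset.sum_le_sum fun k hk => ?_
        have h1 := sq_log_le (ax_nonneg k) q0 (ax_le_two (hF k hk).2)
        have h2 := inv_nonneg.mpr (ax_nonneg (k - q))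
        refine le_trans (le_of_eq ?_) (mul_le_mul_of_nonneg_right
          (div_le_div_of_nonneg_right h1 hν.le) h2)
        by_cases hk : k = 0
        · simp [hk]
        · have := ax_pos hk
          have := one_le_log_e_add (ax_nonneg k)
          rw [mul_one, Real.rpow_two]; field_simp
    _ ≤ 6 * ax q ^ 2 / Real.log (Real.exp 1 + ax q) / ν *
        (K * ax q * Real.log (Real.exp 1 + ax q)) := by
        rw [← Finset.mul_sum]
        exact mul_le_mul_of_nonneg_left (h q F hF) (by positivity)
    _ = _ := by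
        rw [show 1 + 2 * (1 : ℝ) = (3 : ℕ) by norm_num, Real.rpow_natCast]; field_simp

/-- All modes, hyperdissipation on one helicity. -/
theorem bound_of_hyper {ν β : ℝ} (hν : 0 < ν) (hβ : 1 ≤ β) {d : Z3 → ℝ}
    (hd : ∀ k, ν * ax k ^ (5 - 2 * β) / Real.log (Real.exp 1 + ax k) ≤ d k) :
    ∃ K : ℝ, ∀ (q : Z3) (F : Finset Z3), (∀ k ∈ F, k ∈ (univ : Set Z3) ∧ ax (k - q) ≤ ax q) →
      ∑ k ∈ F, ax k ^ 4 / (d k * Real.log (Real.exp 1 + ax k) * ax (k - q)) ≤
        K * ax q ^ (1 + 2 * β) := by
  classical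
  obtain ⟨C, hC0, hC⟩ := exists_sum_mu_le (γ₁ := 2) (γ₂ := 1) two_pos one_pos
  refine ⟨2 ^ (2 * β - 1) / ν * C, fun q F hF => ?_⟩
  by_cases hq : q = 0
  · rw [Finset.sum_eq_zero fun k hk => ?_]
    · have := ax_nonneg q; positivity
    · have := ax_le_two (hF k hk).2
      rw [hq, ax_zero, mul_zero] at this
      simp [le_antisymm this (ax_nonneg k)]
  have q0 := ax_pos hq
  have h1 := hC _ q0 (F.image (· - q))
  rw [Finset.sum_image fun _ _ _ _ h => sub_left_injective h] at h1
  calc _ ≤ ∑ k ∈ F, 2 ^ (2 * β - 1) / ν * ax q ^ (1 + 2 * β) * mu 2 1 (ax q) (k - q) := by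
        refine Finset.sum_le_sum fun k hk => ?_
        have m0 := mu_nonneg 2 1 q0 (k - q)
        by_cases h0 : k = 0
        · simp only [h0, ax_zero, ne_eq, OfNat.ofNat_ne_zero, not_false_eq_true, zero_pow,
            zero_div]
          rw [h0] at m0; positivity
        by_cases h2 : k - q = 0
        · simp [h2, mu]
        have k0 := ax_pos h0
        have p0 := ax_pos h2
        have l := one_le_log_e_add k0.le
        have m : (ax (k - q) / ax q) ^ (2 : ℝ) ≤ (ax q / ax (k - q)) ^ (1 : ℝ) :=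
          (Real.rpow_le_one (by positivity) ((div_le_one q0).mpr (hF k hk).2) two_pos.le).trans
            (by rw [Real.rpow_one]; exact (one_le_div p0).mpr (hF k hk).2)
        have c1 : ν * ax k ^ (5 - 2 * β) ≤ d k * Real.log (Real.exp 1 + ax k) :=
          (div_le_iff₀ (by linarith)).mp (hd k)
        calc _ ≤ ax k ^ 4 / (ν * ax k ^ (5 - 2 * β) * ax (k - q)) := by gcongr
          _ = ax k ^ (2 * β - 1) / ν * (ax (k - q))⁻¹ := by
              have : ax k ^ 4 = ax k ^ (2 * β - 1) * ax k ^ (5 - 2 * β) := by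
                rw [← Real.rpow_add k0, ← Real.rpow_natCast]; congr 1; push_cast; ring
              rw [this]; field_simp
          _ ≤ (2 * ax q) ^ (2 * β - 1) / ν * (ax (k - q))⁻¹ := by
              gcongr
              · linarith
              · exact ax_le_two (hF k hk).2
          _ = _ := by
              rw [mu, if_neg h2, min_eq_left m, Real.mul_rpow two_pos.le q0.le,
                show 1 + 2 * β = 2 * β - 1 + 2 by ring, Real.rpow_add q0, Real.rpow_two,
                Real.rpow_two, show (-3 : ℝ) = -((3 : ℕ) : ℝ) by norm_num, Real.rpow_neg p0.le,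
                Real.rpow_natCast]
              field_simp
    _ ≤ 2 ^ (2 * β - 1) / ν * ax q ^ (1 + 2 * β) * C := by
        rw [← Finset.mul_sum]
        exact mul_le_mul_of_nonneg_left h1 (by positivity)
    _ = _ := by ring

end

end Pool.Agent.Work.MP_6bf1e5_an.B.G
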