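import Pool.Agent.Work.MP_6bf1e5_an.G.Maximal

/-!
Energy identities, the continuation principle and smoothness for the projected system.
-/

open Set Complex Filter Topology MeasureTheory
open scoped InnerProductSpace ComplexConjugate ContDiff

namespace Pool.Agent.Work.MP_6bf1e5_an.B.G

noncomputable section

variable [PJ]

variable {ν : ℝ} {A : Z3 → C3 →L[ℂ] C3}

lemma QQ_FF_eq {φ : Z3 → ℝ} {a : Z3 → C3} (da : DivFree a) :
    QQ (fun k => ((φ k : ℝ) : ℂ) • ContinuousLinearMap.id ℂ C3) a (FF A a) =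
      QQ (fun k => ((φ k : ℝ) : ℂ) • ContinuousLinearMap.id ℂ C3) a (B.FF A a) := by
  refine tsum_congr fun k => ?_
  rw [re_inner_scalar, re_inner_scalar, FF, B.FF, inner_sub_right, inner_sub_right,
    inner_neg_right, inner_neg_right, inner_LP (da k), B.inner_LP (da k).dt]

lemma QQ_H1_eq {a : Z3 → C3} (da : DivFree a) : QQ H1 a (FF A a) = QQ H1 a (B.FF A a) :=
  QQ_FF_eq da

lemma QQ_I1_eq {a : Z3 → C3} (da : DivFree a) : QQ I1 a (FF A a) = QQ I1 a (B.FF A a) :=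
  QQ_FF_eq (φ := fun _ => 1) da

lemma QQ_La_eq {a : Z3 → C3} (da : DivFree a) : QQ La a (FF A a) = QQ La a (B.FF A a) :=
  QQ_FF_eq da

lemma IsSol.rapid {a : ℝ → Z3 → C3} {t0 t1 : ℝ} (ha : IsSol A a t0 t1) {t : ℝ}
    (ht : t ∈ Icc t0 t1) : Rapid (a t) := fun s => (ha.bd s).imp fun _ hM => hM t ht

lemma IsSol.continuousOn {a : ℝ → Z3 → C3} {t0 t1 : ℝ} (ha : IsSol A a t0 t1) (k : Z3) :
    ContinuousOn (fun t => a t k) (Icc t0 t1) := fun t ht => (ha.deriv k t ht).continuousWithinAt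

lemma IsSol.continuousOn_FF {a : ℝ → Z3 → C3} {t0 t1 : ℝ} (ha : IsSol A a t0 t1) (k : Z3) :
    ContinuousOn (fun t => FF A (a t) k) (Icc t0 t1) := by
  obtain ⟨M, hM⟩ := ha.bd 4
  have hB : ContinuousOn (fun t => BB (a t) (a t) k) (Icc t0 t1) := fun t ht =>
    tendsto_BB (fun k => ha.continuousOn k t ht) (fun k => ha.continuousOn k t ht)
      (eventually_nhdsWithin_of_forall fun s hs => ⟨hM s hs, (hM s hs).mono (by norm_num)⟩) k
  exact ((LP k).continuous.comp_continuousOn hB).neg.sub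
    ((A k).continuous.comp_continuousOn (ha.continuousOn k))

lemma IsSol.continuousOn_hq {a : ℝ → Z3 → C3} {t0 t1 : ℝ} (ha : IsSol A a t0 t1) (r : ℝ) :
    ContinuousOn (fun t => hq r (a t)) (Icc t0 t1) := by
  obtain ⟨M, hM⟩ := ha.bd (⌈2 * r⌉₊ + 4)
  refine continuousOn_tsum (fun k => ?_) ((summable_w_inv.mul_left M).mul_right M)
    fun k t ht' => ?_
  · unfold ht
    split_ifs
    · exact continuousOn_const
    · exact continuousOn_const.mul ((ha.continuousOn k).norm.pow 2)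
  · rw [Real.norm_of_nonneg (ht_nonneg _ _ _)]
    refine (ht_le (Nat.le_ceil _) ((hM t ht').mono (Nat.le_add_right _ 4)) k).trans ?_
    exact mul_le_mul_of_nonneg_right ((hM t ht').decay k) (hM t ht').nonneg

lemma IsSol.hasDeriv_QQ (hA : Diss ν A) {a : ℝ → Z3 → C3} {t0 t1 : ℝ} (ha : IsSol A a t0 t1)
    {Φ : Z3 → C3 →L[ℂ] C3} (hΦ : Mult Φ) {t : ℝ} (ht : t ∈ Icc t0 t1) :
    HasDerivWithinAt (fun t => QQ Φ (a t) (a t)) (2 * QQ Φ (a t) (FF A (a t))) (Icc t0 t1) t := by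
  obtain ⟨C, m, hC, hg⟩ := hΦ.growth
  obtain ⟨M, hM⟩ := ha.bd (m + 4)
  obtain ⟨N, hN⟩ := ha.FF_bd hA 0
  have := hasDerivWithinAt_quad (convex_Icc t0 t1) hΦ.sym hC hg hM hN ha.deriv ht
  rwa [tsum_mul_left] at this

lemma IsSol.continuousOn_QQ_FF (hA : Diss ν A) {a : ℝ → Z3 → C3} {t0 t1 : ℝ}
    (ha : IsSol A a t0 t1) {Φ : Z3 → C3 →L[ℂ] C3} (hΦ : Mult Φ) :
    ContinuousOn (fun t => 2 * QQ Φ (a t) (FF A (a t))) (Icc t0 t1) :=
  continuousOn_const.mul
    (continuousOn_QQ hΦ ha.bd (ha.FF_bd hA 0) ha.continuousOn ha.continuousOn_FF)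

/-- Integrability of the `H^{3/2}` norm squared excludes blow-up. -/
theorem Diss.no_blowup (hA : Diss ν A) (hB' : B.Diss ν A) {a : ℝ → Z3 → C3} {Ts K : ℝ} (hTs : 0 < Ts) (hK : 0 ≤ K)
    (ha : ∀ T, T < Ts → IsSol A a 0 T)
    (hl : ∀ t ∈ Ico 0 Ts, ∀ X, Bd 0 (a t) X → t + life ν X ≤ Ts)
    (hI : ∀ T ∈ Ico 0 Ts, ∫⁻ t in Ioo 0 T, ENNReal.ofReal (hq (3 / 2) (a t)) ≤ ENNReal.ofReal K) :
    False := by
  have hν := hA.pos
  obtain ⟨C, hC0, hC⟩ := H1_ineq hB'
  obtain ⟨B, hB0, hB⟩ := osgood (QQ H1 (a 0) (a 0)) (C * K) (by positivity)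
  have key : ∀ T ∈ Ico 0 Ts, (∀ t ∈ Icc 0 T, QQ H1 (a t) (a t) ≤ B) ∧
      ∫⁻ t in Ioo 0 T, ENNReal.ofReal (ν * hq 2 (a t)) ≤ ENNReal.ofReal B := by
    intro T hT
    have s := ha T hT.2
    have y0 : ∀ t ∈ Icc 0 T, 0 ≤ QQ H1 (a t) (a t) := fun t ht =>
      (sq_nonneg _).trans (QQ_H1_ge (s.rapid ht))
    refine hB T _ _ _ (fun t => C * hq (3 / 2) (a t)) hT.1 rfl (fun t ht => s.hasDeriv_QQ hA mult_H1 ht)
      (s.continuousOn_QQ_FF hA mult_H1) (continuousOn_const.mul (s.continuousOn_hq 2)) y0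
      (fun t _ => mul_nonneg hν.le (hq_nonneg _ _)) (fun t _ => mul_nonneg hC0 (hq_nonneg _ _))
      (fun t ht => ?_) ?_
    · rw [QQ_H1_eq (s.div t ht)]
      refine (hC _ (s.rapid ht) (s.div t ht).toB (s.real t ht)).trans ?_
      exact mul_le_mul_of_nonneg_left (le_log_form (y0 t ht)) (mul_nonneg hC0 (hq_nonneg _ _))
    · simp only [ENNReal.ofReal_mul hC0]
      rw [lintegral_const_mul' _ _ ENNReal.ofReal_ne_top]
      gcongr
      exact hI T hT
  obtain ⟨S, hS0, hS⟩ := wiener_le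
  refine not_integrable_blowup (c₁ := 4 * (6 + 18 / ν) * (2 * (√B + 1) ^ 2))
    (c₂ := 4 * (6 + 18 / ν) * (2 * S ^ 2) / ν) hTs (by positivity) (by positivity) hB0
    (d := fun t => ν * hq 2 (a t)) (fun t _ => mul_nonneg hν.le (hq_nonneg _ _)) (fun t ht => ?_)
    (fun T hT => (key T hT).2)
  have tm : t ∈ Icc 0 t := ⟨ht.1, le_rfl⟩
  have rp := (ha t ht.2).rapid tm
  have b0 : ‖a t 0‖ ≤ √B := Real.le_sqrt_of_sq_le ((QQ_H1_ge rp).trans ((key t ht).1 t tm))
  have hX := (hS _ rp).mono_right (add_le_add_left b0 _)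
  have h1 := hl t ht _ hX
  set X := √B + S * √(hq 2 (a t)) with hXdef
  have X0 : 0 ≤ X := hX.nonneg
  have rp0 := rate_pos hν X0
  have h2 : 1 / (Ts - t) ≤ 4 * rate ν 0 (2 * (X + 1)) := by
    rw [div_le_iff₀ (by linarith [ht.2])]
    have : life ν X * (4 * rate ν 0 (2 * (X + 1))) = 1 := by unfold life; field_simp
    nlinarith only [h1, rp0, this]
  have h3 : rate ν 0 (2 * (X + 1)) ≤ (6 + 18 / ν) * (X + 1) ^ 2 := by
    have : rate ν 0 (2 * (X + 1)) = 6 * (X + 1) + 18 / ν * (X + 1) ^ 2 := by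
      unfold rate; field_simp; ring
    rw [this]; nlinarith only [X0]
  have h4 : (X + 1) ^ 2 ≤ 2 * (√B + 1) ^ 2 + 2 * S ^ 2 * hq 2 (a t) := by
    have := Real.sq_sqrt (hq_nonneg 2 (a t))
    rw [hXdef]
    nlinarith only [this, sq_nonneg (√B + 1 - S * √(hq 2 (a t)))]
  have h5 : (6 + 18 / ν) * (X + 1) ^ 2 ≤
      (6 + 18 / ν) * (2 * (√B + 1) ^ 2 + 2 * S ^ 2 * hq 2 (a t)) := by gcongr
  have e : 4 * (6 + 18 / ν) * (2 * S ^ 2) / ν * (ν * hq 2 (a t)) =
      4 * (6 + 18 / ν) * (2 * S ^ 2 * hq 2 (a t)) := by field_simp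
  rw [e]
  linarith only [h2, h3, h5]

theorem energy_bound (hA : Diss ν A) (hB : B.Diss ν A) (a0 : Z3 → C3) :
    ∃ B : ℝ, 0 ≤ B ∧ ∀ (a : ℝ → Z3 → C3) (T : ℝ), 0 ≤ T → a 0 = a0 → IsSol A a 0 T →
      ContinuousOn (fun t => 2 * QQ I1 (a t) fun k => A k (a t k)) (Icc 0 T) ∧
      ∫⁻ t in Ioo 0 T, ENNReal.ofReal (2 * QQ I1 (a t) fun k => A k (a t k)) ≤ ENNReal.ofReal B := by
  obtain ⟨B1, B10, hB1⟩ := osgood (QQ I1 a0 a0) 0 le_rfl
  refine ⟨B1, B10, fun a T hT h0 sl => ?_⟩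
  obtain ⟨Cg, n, hCg, hg⟩ := hA.growth
  have cE : ContinuousOn (fun t => 2 * QQ I1 (a t) fun k => A k (a t k)) (Icc 0 T) := by
    refine continuousOn_const.mul (continuousOn_QQ mult_I1 sl.bd ?_ sl.continuousOn fun k =>
      (A k).continuous.comp_continuousOn (sl.continuousOn k))
    obtain ⟨M, hM⟩ := sl.bd (0 + n)
    exact ⟨_, fun t ht => Bd.of_growth (hM t ht) hCg fun k => hg k _⟩
  exact ⟨cE, (hB1 T _ _ _ (fun _ => 0) hT (by rw [← h0]) (fun t ht => sl.hasDeriv_QQ hA mult_I1 ht)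
    (sl.continuousOn_QQ_FF hA mult_I1) cE
    (fun t _ => tsum_nonneg fun k => by rw [I1, re_inner_scalar, re_inner_self]; positivity)
    (fun t ht => mul_nonneg two_pos.le (QQ_I1_nonneg hB (sl.div t ht).toB)) (fun _ _ => le_rfl)
    (fun t ht => by rw [QQ_I1_eq (sl.div t ht), energy_eq hB (sl.rapid ht) (sl.div t ht).toB (sl.real t ht)]; simp)
    (by simp)).2⟩

lemma IsSol.sm {T : ℝ} (hA : Diss ν A) {a : ℝ → Z3 → C3}
    (ha : IsSol A a 0 T) (n : ℕ) : Sm T n a := by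
  have ub : UB T a := ⟨ha.bd, ha.continuousOn⟩
  obtain ⟨C, m, hC, hg⟩ := hA.growth
  induction n with
  | zero => exact ub
  | succ n ih =>
    refine ⟨ub, fun t => FF A (a t), ha.deriv, ?_⟩
    have h1 := Sm.map (Φ := fun k => (-LP k).restrictScalars ℝ) (C := 1) (m := 0) zero_le_one
      (fun k v => by simpa using norm_LP_le k v) (ih.bb ih)
    have h2 := Sm.map (Φ := fun k => (-A k).restrictScalars ℝ) hC
      (fun k v => by simpa using hg k v) ih
    have := h1.add h2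
    convert this using 2 with t
    funext k
    simp [FF, sub_eq_add_neg]

theorem Diss.classical (hA : Diss ν A) {a : ℝ → Z3 → C3}
    {J : Set ℝ} (hI0 : J ⊆ Ici 0) (hI : ∀ t ∈ J, ∃ T, t < T ∧ Icc 0 T ⊆ J)
    (ha : ∀ T ∈ J, IsSol A a 0 T) :
    ∃ (u : R3 → ℝ → R3) (p : R3 → ℝ → ℝ),
      (∀ t ∈ J, ∀ x i, HasSum (fun k => ek k x * a t k i) ((u x t i : ℝ) : ℂ)) ∧
      (∀ t ∈ J, IsData fun x => u x t) ∧
      ∀ (L : (R3 → R3) → R3 → R3) (u0 : R3 → R3), (∀ x, u x 0 = u0 x) →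
        (∀ t ∈ J, ∀ x i, HasSum (fun k => ek k x * (FF A (a t) k + B.LP k (BB (a t) (a t) k)) i)
          ((L (fun y => u y t) x i : ℝ) : ℂ)) → IsSolutionOn L u0 J u p := by
  have hJ : UniqueDiffOn ℝ J := fun t ht => by
    obtain ⟨T, hT, hTI⟩ := hI t ht
    have h0 : (0 : ℝ) ≤ t := hI0 ht
    exact (uniqueDiffOn_Icc (h0.trans_lt hT) t ⟨h0, hT.le⟩).mono hTI
  have tm : ∀ t ∈ J, t ∈ Icc 0 t := fun t ht => ⟨hI0 ht, le_rfl⟩
  have s1 : ∀ i, ∀ T ∈ J, ∀ n, Sm T n fun t k => a t k i := fun i T hT n =>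
    Sm.map (Φ := fun _ => (EuclideanSpace.proj (𝕜 := ℂ) i).restrictScalars ℝ) (C := 1) (m := 0)
      zero_le_one (fun k v => by simpa using PiLp.norm_apply_le v i) ((ha T hT).sm hA n)
  have s2 : ∀ T ∈ J, ∀ n, Sm T n fun t k => pS k (BB (a t) (a t) k) := fun T hT n =>
    Sm.map zero_le_one norm_pS_le (((ha T hT).sm hA n).bb ((ha T hT).sm hA n))
  set u : R3 → ℝ → R3 := fun x t i => (ser (fun t k => a t k i) (x, t)).re with hu
  set p : R3 → ℝ → ℝ := fun x t => (ser (fun t k => pS k (BB (a t) (a t) k)) (x, t)).re with hp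
  have ju : ∀ i, JS J fun x t => u x t i := fun i => js_ser hI0 hI (s1 i)
  have jp : JS J p := js_ser hI0 hI s2
  have su : ∀ t ∈ J, ∀ x i, HasSum (fun k => ek k x * a t k i) ((u x t i : ℝ) : ℂ) := by
    intro t ht x i
    obtain ⟨M, hM⟩ := (s1 i t ht 0).1 4
    exact hasSum_re (hM t (tm t ht)) (fun k => by beta_reduce; rw [(ha t ht).real t (tm t ht) k]; simp) x
  have sp : ∀ t ∈ J, sc (fun x => p x t) = fun k => pS k (BB (a t) (a t) k) := by
    intro t ht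
    obtain ⟨M, hM⟩ := (s2 t ht 0).1 4
    obtain ⟨N, hN⟩ := (ha t ht).rapid (tm t ht) 1
    have r := (ha t ht).real t (tm t ht)
    refine sc_of_hasSum (hM t (tm t ht)).summable_norm fun x =>
      hasSum_re (hM t (tm t ht)) (fun k => ?_) x
    beta_reduce
    rw [BB_real (hN.mono (Nat.zero_le 1)) hN r r k, pS_apply, pS_apply, dt_neg_right, dt_cj, ax_neg]
    simp
  have pu : ∀ t, Periodic3 fun x => u x t := fun t j x => by
    funext i; simp only [hu, ser, ek_periodic _ j x]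
  have pp : ∀ t, Periodic3 fun x => p x t := fun t j x => by
    simp only [hp, ser, ek_periodic _ j x]
  have fu : ∀ t ∈ J, (fc fun x => u x t) = a t := fun t ht =>
    fc_of_hasSum ((ha t ht).rapid (tm t ht)).summable_norm (su t ht)
  have cu : ∀ t ∈ J, ContDiff ℝ ∞ fun x => u x t := fun t ht =>
    contDiff_pi.mpr fun i => (ju i).slice ht
  have pui : ∀ t i, Periodic3 fun x => u x t i := fun t i j x => congrFun (pu t j x) i
  have du : ∀ x, ∀ t ∈ J, ∑ i, pd i (fun y => u y t i) x = 0 := by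
    intro x t ht
    have c1 : ∀ i, ContDiff ℝ ∞ (pd i fun y => u y t i) := fun i => contDiff_pd ((ju i).slice ht) i
    have h1 := hasSum_sc_smooth (g := fun x => ∑ i, pd i (fun y => u y t i) x)
      (ContDiff.sum fun i _ => c1 i)
      (fun j x => Finset.sum_congr rfl fun i _ => (pui t i).pd i j x) x
    have h2 : ∀ k, sc (fun x => ∑ i, pd i (fun y => u y t i) x) k = 0 := fun k => by
      rw [sc_sum fun i => (c1 i).continuous]
      simp only [sc_pd ((ju _).slice ht) (pui t _), ← fc_apply (fun x => u x t), fu t ht]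
      have := ((ha t ht).div t (tm t ht) k).dt
      rw [dt_eq] at this
      rw [← mul_zero I, ← this, Finset.mul_sum]
      exact Finset.sum_congr rfl fun j _ => by ring
    simp only [h2, mul_zero] at h1
    exact_mod_cast h1.unique hasSum_zero
  refine ⟨u, p, su, fun t ht => ⟨cu t ht, pu t, fun x => du x t ht⟩, fun L u0 h0 hL =>
    ⟨contDiffOn_pi.mpr ju, jp, fun t _ => pu t, fun t _ => pp t, fun x t ht i => ?_, du, h0⟩⟩
  have c1 : ContDiff ℝ ∞ fun x => derivWithin (fun s => u x s i) J t := ((ju i).time hJ).slice ht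
  have c2 : ContDiff ℝ ∞ fun x => ∑ j, u x t j * pd j (fun y => u y t i) x :=
    ContDiff.sum fun j _ => ((ju j).slice ht).mul (contDiff_pd ((ju i).slice ht) j)
  have c3 : ContDiff ℝ ∞ (pd i fun y => p y t) := contDiff_pd (jp.slice ht) i
  have h1 := hasSum_sc_smooth (g := fun x => derivWithin (fun s => u x s i) J t +
      ∑ j, u x t j * pd j (fun y => u y t i) x + pd i (fun y => p y t) x)
    ((c1.add c2).add c3) (fun j x => by
      have e1 : (fun s => u (x + Pi.single j 1) s i) = fun s => u x s i := funext fun s => pui s i j x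
      simp only [e1, (pp t).pd i j x, (pui t i).pd _ j x]
      congr 2
      exact Finset.sum_congr rfl fun l _ => congrArg (· * _) (pui t l j x)) x
  have h2 : ∀ k, sc (fun x => derivWithin (fun s => u x s i) J t +
      ∑ j, u x t j * pd j (fun y => u y t i) x + pd i (fun y => p y t) x) k =
      (FF A (a t) k + B.LP k (BB (a t) (a t) k)) i := fun k => by
    obtain ⟨T, hT, hTI⟩ := hI t ht
    have h0 : (0 : ℝ) ≤ t := hI0 ht
    have tT : t ∈ Icc 0 T := ⟨h0, hT.le⟩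
    have d1 := (ju i).hasDerivWithinAt_sc hJ hTI k tT
    have d2 : HasDerivWithinAt (fun s => a s k i) (FF A (a t) k i) (Icc 0 T) t :=
      ((EuclideanSpace.proj (𝕜 := ℂ) i).restrictScalars ℝ).hasFDerivAt.comp_hasDerivWithinAt t
        ((ha T (hTI ⟨h0.trans hT.le, le_rfl⟩)).deriv k t tT)
    have ee : ∀ s ∈ Icc 0 T, sc (fun x => u x s i) k = a s k i := fun s hs => by
      rw [← fu s (hTI hs), fc_apply]
    have e1 := (uniqueDiffOn_Icc (h0.trans_lt hT) t tT).eq_deriv _ d1 (d2.congr ee (ee t tT))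
    have e2 := congrArg (fun v : C3 => v i) (fc_transport (cu t ht) (pu t) (cu t ht) (pu t) k)
    simp only [fc_apply, fu t ht] at e2
    rw [sc_add (c1.add c2).continuous c3.continuous, sc_add c1.continuous c2.continuous, e1, e2,
      sc_pd (jp.slice ht) (pp t), sp t ht, LP_apply]
    simp only [pS_apply, PiLp.sub_apply, PiLp.add_apply, PiLp.smul_apply, smul_eq_mul, cxi]
    push_cast
    linear_combination (2 * Real.pi * (k i : ℂ) * ((ax k : ℂ) ^ 2)⁻¹ * dt (BB (a t) (a t) k) k) * I_mul_I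
  simp only [h2] at h1
  exact_mod_cast h1.unique (hL t ht x i)

end

end Pool.Agent.Work.MP_6bf1e5_an.B.G
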