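import Pool.Agent.Work.MP_6bf1e5_an.G.Scheme

/-!
Local existence of rapidly decreasing solutions of the Fourier-side system, with a lifespan
that depends only on the Wiener norm of the data.
-/

open Set Complex Filter Topology
open scoped InnerProductSpace ComplexConjugate

namespace Pool.Agent.Work.MP_6bf1e5_an.B.G

noncomputable section

variable [PJ]

variable {ν : ℝ} {A : Z3 → C3 →L[ℂ] C3}

/-- Solutions of the Fourier-side system on a compact interval. -/
structure IsSol (A : Z3 → C3 →L[ℂ] C3) (a : ℝ → Z3 → C3) (t0 t1 : ℝ) : Prop where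
  bd : ∀ s, ∃ M, ∀ t ∈ Icc t0 t1, Bd s (a t) M
  real : ∀ t ∈ Icc t0 t1, IsReal (a t)
  div : ∀ t ∈ Icc t0 t1, DivFree (a t)
  deriv : ∀ k, ∀ t ∈ Icc t0 t1, HasDerivWithinAt (fun t => a t k) (FF A (a t) k) (Icc t0 t1) t

/-- The increment of the scheme. -/
def GG (A : Z3 → C3 →L[ℂ] C3) (h : ℝ) (a : Z3 → C3) (n : ℕ) (k : Z3) : C3 :=
  -(LP k (BB (sq A h a n) (sq A h a n) k)) - A k (sq A h a (n + 1) k)

lemma Diss.sq_incr (hA : Diss ν A) {h : ℝ} (hh : 0 ≤ h) {a : Z3 → C3} (da : DivFree a)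
    (ra : IsReal a) (hr : Rapid a) (n : ℕ) (k : Z3) :
    sq A h a (n + 1) k - sq A h a n k = h • GG A h a n k := by
  obtain ⟨h1, -, -⟩ := hA.sq_props hh da ra hr n
  have := (hA.step_spec hh h1 k).2
  rw [← sq_succ] at this
  rw [GG, smul_sub, smul_neg, ← Complex.coe_smul, ← Complex.coe_smul]
  linear_combination (norm := abel1) this

section Incr

variable (hA : Diss ν A) {h : ℝ} (hh : 0 ≤ h) {a : Z3 → C3} (da : DivFree a)
  (ra : IsReal a) (hr : Rapid a) {T : ℝ} {M : ℕ → ℝ}
  (hM : ∀ s, ∀ n : ℕ, n * h ≤ T → Bd s (sq A h a n) (M s))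
  {C : ℝ} {m : ℕ} (hC : 0 ≤ C) (hg : ∀ k v, ‖A k v‖ ≤ C * w k ^ m * ‖v‖)

include hh hM hC hg in
lemma GG_bd (s n : ℕ) (hn : (n + 1 : ℕ) * h ≤ T) :
    Bd s (GG A h a n) (M s * M (s + 1) + C * M (s + m)) := by
  have hn' : n * h ≤ T := le_trans (by push_cast; linarith) hn
  exact (Bd_LP (Bd_BB (hM s n hn') (hM (s + 1) n hn'))).neg.sub
    (Bd.of_growth (hM (s + m) (n + 1) hn) hC fun k => hg k _)

include hA hh da ra hr hM hC hg in
lemma sq_diff_bd (s n d : ℕ) (hn : (n + d : ℕ) * h ≤ T) :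
    Bd s (fun k => sq A h a (n + d) k - sq A h a n k)
      (d * h * (M s * M (s + 1) + C * M (s + m))) := by
  induction d with
  | zero => simpa using Bd.zero s
  | succ d ih =>
    have hn' : (n + d : ℕ) * h ≤ T := le_trans (by push_cast; linarith) hn
    have h1 := (GG_bd hh hM hC hg s (n + d) hn).smul_real hh
    have h2 := (ih hn').add h1
    have e : (fun k => sq A h a (n + (d + 1)) k - sq A h a n k) =
        fun k => (sq A h a (n + d) k - sq A h a n k) + h • GG A h a (n + d) k := by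
      funext k
      rw [← hA.sq_incr hh da ra hr, ← add_assoc]; abel
    rw [e]
    refine h2.mono_right (le_of_eq ?_)
    push_cast; ring

include hA hh da ra hr hM hC hg in
lemma GG_diff (n d : ℕ) (hn : (n + d + 1 : ℕ) * h ≤ T) (k : Z3) :
    ‖GG A h a (n + d) k - GG A h a n k‖ ≤
      (2 * M 1 * (M 1 * M 2 + C * M (1 + m)) + C * (M m * M (m + 1) + C * M (m + m))) * (d * h) := by
  have hn1 : (n + d : ℕ) * h ≤ T := le_trans (by push_cast; linarith) hn
  have hd : (0 : ℝ) ≤ d * h := by positivity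
  have hn2 : (n : ℕ) * h ≤ T := le_trans (by push_cast; linarith) hn1
  have hn3 : (n + 1 + d : ℕ) * h ≤ T := by rw [add_right_comm]; exact hn
  have b1 := sq_diff_bd hA hh da ra hr hM hC hg 1 n d hn1
  have b2 := sq_diff_bd hA hh da ra hr hM hC hg m (n + 1) d hn3
  have e : GG A h a (n + d) k - GG A h a n k =
      -(LP k (BB (sq A h a (n + d)) (sq A h a (n + d)) k - BB (sq A h a n) (sq A h a n) k)) -
        A k (sq A h a (n + 1 + d) k - sq A h a (n + 1) k) := by
    simp only [GG, map_sub, add_right_comm n 1 d]; abel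
  rw [e, BB_sub_self (hM 1 _ hn1) (hM 1 _ hn2)]
  have c1 := norm_BB_le (b1.mono (Nat.zero_le 1)) (hM 1 _ hn1) k
  have c2 := norm_BB_le ((hM 1 _ hn2).mono (Nat.zero_le 1)) b1 k
  have c3 := b2.pt k
  have c4 := hg k (sq A h a (n + 1 + d) k - sq A h a (n + 1) k)
  have c5 : C * w k ^ m * ‖sq A h a (n + 1 + d) k - sq A h a (n + 1) k‖ ≤
      C * (d * h * (M m * M (m + 1) + C * M (m + m))) := by
    rw [mul_assoc]; exact mul_le_mul_of_nonneg_left c3 hC
  refine (norm_sub_le _ _).trans ?_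
  rw [norm_neg]
  have c6 := (norm_LP_le k _).trans ((norm_add_le _ _).trans (add_le_add c1 c2))
  have : (1 + 1 : ℕ) = 2 := rfl
  rw [this] at c6
  linarith only [c4, c5, c6]

include hA hh da ra hr hM hC hg in
lemma sq_taylor {L : ℝ}
    (hL : L = 2 * M 1 * (M 1 * M 2 + C * M (1 + m)) + C * (M m * M (m + 1) + C * M (m + m)))
    (n d j : ℕ) (hj : j ≤ d) (hn : (n + d + 1 : ℕ) * h ≤ T) (k : Z3) (i : ℕ) (hi : i ≤ d) :
    ‖sq A h a (n + j) k - sq A h a n k - (j * h) • GG A h a (n + i) k‖ ≤ L * (d * h) * (j * h) := by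
  have h00 : (0 : ℕ) * h ≤ T := le_trans (by gcongr; omega) hn
  have hL0 : 0 ≤ L := by
    have := (hM 1 0 h00).nonneg
    have := (hM 2 0 h00).nonneg
    have := (hM m 0 h00).nonneg
    have := (hM (1 + m) 0 h00).nonneg
    have := (hM (m + 1) 0 h00).nonneg
    have := (hM (m + m) 0 h00).nonneg
    rw [hL]; positivity
  induction j with
  | zero => simp
  | succ j ih =>
    have ih' := ih (by omega)
    have e : sq A h a (n + (j + 1)) k - sq A h a n k - (((j + 1 : ℕ) : ℝ) * h) • GG A h a (n + i) k =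
        (sq A h a (n + j) k - sq A h a n k - (j * h) • GG A h a (n + i) k) +
          h • (GG A h a (n + j) k - GG A h a (n + i) k) := by
      have := hA.sq_incr hh da ra hr (n + j) k
      rw [smul_sub, ← this, ← add_assoc]
      push_cast
      rw [add_mul, add_smul, one_mul]
      abel
    have hG : ‖GG A h a (n + j) k - GG A h a (n + i) k‖ ≤ L * (d * h) := by
      rcases le_total i j with hij | hij
      · obtain ⟨e', rfl⟩ := Nat.exists_eq_add_of_le hij
        have := GG_diff hA hh da ra hr hM hC hg (n + i) e'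
          (le_trans (mul_le_mul_of_nonneg_right (Nat.cast_le.mpr (by omega)) hh) hn) k
        rw [← hL, add_assoc] at this
        refine this.trans ?_
        gcongr; omega
      · obtain ⟨e', rfl⟩ := Nat.exists_eq_add_of_le hij
        have := GG_diff hA hh da ra hr hM hC hg (n + j) e'
          (le_trans (mul_le_mul_of_nonneg_right (Nat.cast_le.mpr (by omega)) hh) hn) k
        rw [← hL, add_assoc, norm_sub_rev] at this
        refine this.trans ?_
        gcongr; omega
    rw [e]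
    refine (norm_add_le _ _).trans ?_
    rw [norm_smul, Real.norm_of_nonneg hh]
    have := mul_le_mul_of_nonneg_left hG hh
    push_cast
    linarith only [ih', this]

include hA hh da ra hr hM hC hg in
lemma sq_taylor' {L : ℝ}
    (hL : L = 2 * M 1 * (M 1 * M 2 + C * M (1 + m)) + C * (M m * M (m + 1) + C * M (m + m)))
    (i j : ℕ) (hi : (i + 1 : ℕ) * h ≤ T) (hj : (j + 1 : ℕ) * h ≤ T) (k : Z3) :
    ‖sq A h a j k - sq A h a i k - (j * h - i * h) • GG A h a i k‖ ≤ L * (j * h - i * h) ^ 2 := by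
  rcases le_total i j with hij | hij
  · obtain ⟨d, rfl⟩ := Nat.exists_eq_add_of_le hij
    have := sq_taylor hA hh da ra hr hM hC hg hL i d d le_rfl hj k 0 (Nat.zero_le d)
    have e : ((i + d : ℕ) : ℝ) * h - i * h = d * h := by push_cast; ring
    rw [e]
    simpa [sq, mul_assoc, pow_two] using this
  · obtain ⟨d, rfl⟩ := Nat.exists_eq_add_of_le hij
    have := sq_taylor hA hh da ra hr hM hC hg hL j d d le_rfl hi k d le_rfl
    have e : (j : ℝ) * h - ((j + d : ℕ) : ℝ) * h = -(d * h) := by push_cast; ring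
    rw [e, ← norm_neg]
    have e2 : -(sq A h a j k - sq A h a (j + d) k - -((d : ℝ) * h) • GG A h a (j + d) k) =
        sq A h a (j + d) k - sq A h a j k - ((d : ℝ) * h) • GG A h a (j + d) k := by
      rw [neg_smul]; abel
    rw [e2]
    refine this.trans (le_of_eq ?_)
    ring

end Incr

/-- Local existence starting at time zero. -/
theorem Diss.local_exists_zero (hA : Diss ν A) {a0 : Z3 → C3} (da : DivFree a0) (ra : IsReal a0)
    (hr : Rapid a0) {X : ℝ} (hX : Bd 0 a0 X) :
    ∃ a, IsSol A a 0 (life ν X) ∧ a 0 = a0 := by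
  obtain ⟨h0, h0pos, M, hM⟩ := hA.scheme_bounds da ra hr hX
  obtain ⟨C, m, hC, hg⟩ := hA.growth
  set T := life ν X with hT
  have Tpos : 0 < T := life_pos hA.pos hX.nonneg
  set hs : ℕ → ℝ := fun N => T / (N + 1) with hhs
  have hspos : ∀ N, 0 < hs N := fun N => by simp only [hhs]; positivity
  let U : Filter ℕ := hyperfilter ℕ
  have hU : U ≤ atTop := Nat.hyperfilter_le_atTop
  have hs0 : Tendsto hs U (𝓝 0) := by
    have : Tendsto hs atTop (𝓝 0) := by
      have := tendsto_one_div_add_atTop_nhds_zero_nat (𝕜 := ℝ).const_mul T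
      simpa [hhs, div_eq_mul_inv] using this
    exact this.mono_left hU
  have hev : ∀ᶠ N in U, hs N ≤ h0 := hs0.eventually (ge_mem_nhds h0pos)
  set nn : ℕ → ℝ → ℕ := fun N t => ⌊t / hs N⌋₊ with hnn
  have n1 : ∀ N, ∀ t ∈ Icc 0 T, nn N t * hs N ≤ t := fun N t ht => by
    have := Nat.floor_le (div_nonneg ht.1 (hspos N).le)
    rwa [le_div_iff₀ (hspos N)] at this
  have n2 : ∀ N t, t < (nn N t + 1) * hs N := fun N t => by
    have := Nat.lt_floor_add_one (t / hs N)
    rwa [div_lt_iff₀ (hspos N)] at this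
  have hsT : ∀ N, hs N ≤ T := fun N => by
    simp only [hhs]
    exact div_le_self Tpos.le (by linarith only [Nat.cast_nonneg (α := ℝ) N])
  have n3 : ∀ N, ∀ t ∈ Icc 0 T, ((nn N t + 1 : ℕ) : ℝ) * hs N ≤ 2 * T := fun N t ht => by
    have := n1 N t ht
    have := hsT N
    have := ht.2
    push_cast; linarith
  have n4 : ∀ N, ∀ t ∈ Icc 0 T, (nn N t : ℝ) * hs N ≤ 2 * T := fun N t ht => by
    have := n1 N t ht
    have := ht.2
    linarith
  have n5 : ∀ t ∈ Icc 0 T, Tendsto (fun N => (nn N t : ℝ) * hs N) U (𝓝 t) := fun t ht => by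
    have l : Tendsto (fun N => t - hs N) U (𝓝 t) := by simpa using tendsto_const_nhds.sub hs0
    refine tendsto_of_tendsto_of_tendsto_of_le_of_le l tendsto_const_nhds (fun N => ?_)
      (fun N => n1 N t ht)
    have := n2 N t
    simp only; linarith only [this]
  set f : ℕ → ℝ → Z3 → C3 := fun N t => sq A (hs N) a0 (nn N t) with hf
  have fb : ∀ s, ∀ t ∈ Icc 0 T, ∀ᶠ N in U, Bd s (f N t) (M s) := fun s t ht =>
    hev.mono fun N hN => hM s _ (hspos N).le hN _ (n4 N t ht)
  have lim : ∀ t k, ∃ x : C3, t ∈ Icc 0 T → Tendsto (fun N => f N t k) U (𝓝 x) := by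
    intro t k
    by_cases ht : t ∈ Icc 0 T
    · obtain ⟨x, -, hx⟩ := (isCompact_closedBall (0 : C3) (M 0)).ultrafilter_le_nhds'
        ((hyperfilter ℕ).map fun N => f N t k) (by
          rw [Ultrafilter.mem_map]
          exact (fb 0 t ht).mono fun N hN => by simpa using hN.norm_le k)
      exact ⟨x, fun _ => hx⟩
    · exact ⟨0, fun h => absurd h ht⟩
  choose a ha using lim
  have props := fun N n => hA.sq_props (hspos N).le da ra hr n
  have abd : ∀ s, ∀ t ∈ Icc 0 T, Bd s (a t) (M s) := fun s t ht =>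
    Bd.of_tendsto (fun k => ha t k ht) (fb s t ht)
  have Glim : ∀ t ∈ Icc 0 T, ∀ k,
      Tendsto (fun N => GG A (hs N) a0 (nn N t) k) U (𝓝 (FF A (a t) k)) := by
    intro t ht k
    have l1 := tendsto_BB (fun k => ha t k ht) (fun k => ha t k ht)
      ((fb 4 t ht).and (fb 1 t ht)) k
    have l2 : Tendsto (fun N => sq A (hs N) a0 (nn N t + 1) k) U (𝓝 (a t k)) := by
      have l3 : Tendsto (fun N => sq A (hs N) a0 (nn N t + 1) k - f N t k) U (𝓝 0) := by
        have l4 := hs0.mul_const (M 0 * M (0 + 1) + C * M (0 + m))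
        rw [zero_mul] at l4
        refine squeeze_zero_norm' (hev.mono fun N hN => ?_) l4
        have := sq_diff_bd hA (hspos N).le da ra hr (fun s n hn => hM s _ (hspos N).le hN n hn)
          hC hg 0 (nn N t) 1 (n3 N t ht)
        simpa using this.norm_le k
      simpa using l3.add (ha t k ht)
    exact (((LP k).continuous.tendsto _).comp l1).neg.sub (((A k).continuous.tendsto _).comp l2)
  set L := 2 * M 1 * (M 1 * M 2 + C * M (1 + m)) + C * (M m * M (m + 1) + C * M (m + m)) with hL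
  have tay : ∀ t ∈ Icc 0 T, ∀ t' ∈ Icc 0 T, ∀ k,
      ‖a t' k - a t k - (t' - t) • FF A (a t) k‖ ≤ L * (t' - t) ^ 2 := by
    intro t ht t' ht' k
    have l1 := (((ha t' k ht').sub (ha t k ht)).sub
      (((n5 t' ht').sub (n5 t ht)).smul (Glim t ht k))).norm
    have l2 := (((n5 t' ht').sub (n5 t ht)).pow 2).const_mul L
    exact le_of_tendsto_of_tendsto l1 l2 (hev.mono fun N hN =>
      sq_taylor' hA (hspos N).le da ra hr (fun s n hn => hM s _ (hspos N).le hN n hn) hC hg hL
        _ _ (n3 N t ht) (n3 N t' ht') k)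
  refine ⟨a, ⟨fun s => ⟨M s, abd s⟩, fun t ht k => ?_, fun t ht k => ?_, fun k t ht => ?_⟩, ?_⟩
  · refine tendsto_nhds_unique (ha t (-k) ht) ?_
    have := (cj.continuous.tendsto _).comp (ha t k ht)
    refine this.congr fun N => ?_
    exact ((props N _).2.1 k).symm
  · have := ((LP k).continuous.tendsto _).comp (ha t k ht)
    refine tendsto_nhds_unique this ?_
    refine (ha t k ht).congr fun N => ?_
    exact ((props N _).1 k).symm
  · rw [hasDerivWithinAt_iff_isLittleO]
    refine Asymptotics.IsBigO.trans_isLittleO (g := fun t' => ‖t' - t‖ ^ 2) ?_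
      ((Asymptotics.isLittleO_pow_sub_sub t one_lt_two).mono nhdsWithin_le_nhds)
    refine Asymptotics.IsBigO.of_bound L ?_
    filter_upwards [self_mem_nhdsWithin] with t' ht'
    simpa using tay t ht t' ht' k
  · funext k
    have h0 : (0 : ℝ) ∈ Icc 0 T := ⟨le_rfl, Tpos.le⟩
    refine tendsto_nhds_unique (ha 0 k h0) ?_
    refine tendsto_const_nhds.congr fun N => ?_
    simp [hf, hnn, sq]

/-- Local existence starting at an arbitrary time. -/
theorem Diss.local_exists (hA : Diss ν A) {a0 : Z3 → C3} (da : DivFree a0) (ra : IsReal a0)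
    (hr : Rapid a0) {X : ℝ} (hX : Bd 0 a0 X) (t0 : ℝ) :
    ∃ a, IsSol A a t0 (t0 + life ν X) ∧ a t0 = a0 := by
  obtain ⟨a, ha, h0⟩ := hA.local_exists_zero da ra hr hX
  have hm : ∀ t ∈ Icc t0 (t0 + life ν X), t - t0 ∈ Icc 0 (life ν X) := fun t ht =>
    ⟨by linarith [ht.1], by linarith [ht.2]⟩
  refine ⟨fun t => a (t - t0), ⟨fun s => ?_, fun t ht => ha.real _ (hm t ht),
    fun t ht => ha.div _ (hm t ht), fun k t ht => ?_⟩, by simpa using h0⟩
  · obtain ⟨M, hM⟩ := ha.bd s
    exact ⟨M, fun t ht => hM _ (hm t ht)⟩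
  · have := (ha.deriv k _ (hm t ht)).scomp t ((hasDerivWithinAt_id t _).sub_const t0) hm
    rw [one_smul] at this
    exact this

end

end Pool.Agent.Work.MP_6bf1e5_an.B.G
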