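import Pool.Agent.Work.MP_6bf1e5_an.G.Local

/-!
Quadratic functionals along solutions, uniqueness, gluing and the maximal solution.
-/

open Set Complex Filter Topology
open scoped InnerProductSpace ComplexConjugate

namespace Pool.Agent.Work.MP_6bf1e5_an.B.G

noncomputable section

variable [PJ]

variable {ν : ℝ} {A : Z3 → C3 →L[ℂ] C3}

lemma FF_bd {C : ℝ} {m : ℕ} (hC : 0 ≤ C) (hg : ∀ k v, ‖A k v‖ ≤ C * w k ^ m * ‖v‖) {s : ℕ}
    {a : Z3 → C3} {M : ℝ} (h : Bd (s + 1 + m) a M) : Bd s (FF A a) (M * M + C * M) :=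
  (Bd_LP (Bd_BB (h.mono (by omega)) (h.mono (by omega)))).neg.sub
    (Bd.of_growth (h.mono (by omega)) hC fun k => hg k _)

lemma IsSol.FF_bd (hA : Diss ν A) {a : ℝ → Z3 → C3} {t0 t1 : ℝ} (ha : IsSol A a t0 t1) (s : ℕ) :
    ∃ M, ∀ t ∈ Icc t0 t1, Bd s (FF A (a t)) M := by
  obtain ⟨C, m, hC, hg⟩ := hA.growth
  obtain ⟨M, hM⟩ := ha.bd (s + 1 + m)
  exact ⟨_, fun t ht => G.FF_bd hC hg (hM t ht)⟩

theorem IsSol.unique (hA : Diss ν A) {a b : ℝ → Z3 → C3} {t0 t1 : ℝ} (ha : IsSol A a t0 t1)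
    (hb : IsSol A b t0 t1) (h0 : a t0 = b t0) : ∀ t ∈ Icc t0 t1, a t = b t := by
  obtain ⟨Ma, hMa⟩ := ha.bd 4
  obtain ⟨Mb, hMb⟩ := hb.bd 4
  obtain ⟨Na, hNa⟩ := ha.FF_bd hA 0
  obtain ⟨Nb, hNb⟩ := hb.FF_bd hA 0
  set d : ℝ → Z3 → C3 := fun t k => a t k - b t k with hd
  set d' : ℝ → Z3 → C3 := fun t k => FF A (a t) k - FF A (b t) k with hd'
  have db : ∀ t ∈ Icc t0 t1, Bd 4 (d t) (Ma + Mb) := fun t ht => (hMa t ht).sub (hMb t ht)
  have hid : ∀ (k : Z3) (v : C3), ‖(ContinuousLinearMap.id ℂ C3) v‖ ≤ 1 * w k ^ 0 * ‖v‖ := by simp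
  have hy : ∀ t ∈ Icc t0 t1, HasDerivWithinAt (fun t => ∑' k, ‖d t k‖ ^ 2)
      (∑' k, 2 * (⟪d t k, d' t k⟫_ℂ).re) (Icc t0 t1) t := by
    intro t ht
    have := hasDerivWithinAt_quad (a := d) (a' := d') (convex_Icc t0 t1)
      (Φ := fun _ => ContinuousLinearMap.id ℂ C3) (fun _ _ _ => rfl) zero_le_one hid db
      (fun t ht => (hNa t ht).sub (hNb t ht))
      (fun k t ht => (ha.deriv k t ht).sub (hb.deriv k t ht)) ht
    simpa [inner_self_eq_norm_sq_to_K, ← Complex.ofReal_pow] using this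
  have hle : ∀ t ∈ Icc t0 t1, ∑' k, 2 * (⟪d t k, d' t k⟫_ℂ).re ≤ 2 * Ma * ∑' k, ‖d t k‖ ^ 2 := by
    intro t ht
    have b1 : Bd 1 (a t) Ma := (hMa t ht).mono (by norm_num)
    have b2 : Bd 1 (b t) Mb := (hMb t ht).mono (by norm_num)
    have b3 : Bd 1 (d t) (Ma + Mb) := (db t ht).mono (by norm_num)
    have dd : DivFree (d t) := fun k => (ha.div t ht k).sub (hb.div t ht k)
    have rd : IsReal (d t) := fun k => by
      simp only [hd]; rw [ha.real t ht k, hb.real t ht k, map_sub]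
    have s1 := hasSum_inner_BB (b3.mono (Nat.zero_le 1)) b1 b3.norm_le
    have s2 := hasSum_inner_BB (b2.mono (Nat.zero_le 1)) b3 b3.norm_le
    rw [TT_self (hb.div t ht).toB rd] at s2
    have s3 := Complex.reCLM.hasSum (s1.add s2)
    have pt : ∀ k, 2 * (⟪d t k, d' t k⟫_ℂ).re ≤
        -2 * Complex.reCLM (⟪d t k, BB (d t) (a t) k⟫_ℂ + ⟪d t k, BB (b t) (d t) k⟫_ℂ) := by
      intro k
      have e : d' t k = -(LP k (BB (d t) (a t) k + BB (b t) (d t) k)) - A k (d t k) := by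
        simp only [hd', hd, FF]
        rw [← BB_sub_self b1 b2, map_sub, map_sub]; abel
      rw [e, inner_sub_right, inner_neg_right, inner_LP (dd k), inner_add_right]
      have := hA.coer k _ (dd k)
      have h2 : 0 ≤ ν * ax k ^ 2 * ‖d t k‖ ^ 2 := by have := hA.pos; positivity
      simp only [Complex.sub_re, Complex.neg_re, Complex.reCLM_apply]
      linarith
    have sm : Summable fun k => 2 * (⟪d t k, d' t k⟫_ℂ).re :=
      (summable_re_inner (Φ := fun _ => ContinuousLinearMap.id ℂ C3) zero_le_one hid (db t ht)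
        ((hNa t ht).sub (hNb t ht))).mul_left 2
    have := hasSum_le pt sm.hasSum (s3.mul_left (-2))
    have h2 := norm_TT_le_l2 (b3.mono (Nat.zero_le 1)) b1
    have h3 := Complex.abs_re_le_norm (TT (d t) (a t) (d t))
    have h4 := neg_abs_le (TT (d t) (a t) (d t)).re
    simp only [add_zero, Complex.reCLM_apply] at this
    linarith
  have hg : AntitoneOn (fun t => Real.exp (-(2 * Ma) * t) * ∑' k, ‖d t k‖ ^ 2) (Icc t0 t1) := by
    have hder : ∀ t ∈ Icc t0 t1, HasDerivWithinAt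
        (fun t => Real.exp (-(2 * Ma) * t) * ∑' k, ‖d t k‖ ^ 2)
        (Real.exp (-(2 * Ma) * t) * (-(2 * Ma)) * (∑' k, ‖d t k‖ ^ 2) +
          Real.exp (-(2 * Ma) * t) * ∑' k, 2 * (⟪d t k, d' t k⟫_ℂ).re) (Icc t0 t1) t := by
      intro t ht
      have := (((hasDerivAt_id t).const_mul (-(2 * Ma))).exp.hasDerivWithinAt
        (s := Icc t0 t1)).fun_mul (hy t ht)
      simp only [id, mul_one] at this
      exact this
    refine antitoneOn_of_hasDerivWithinAt_nonpos (convex_Icc t0 t1)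
      (fun t ht => (hder t ht).continuousWithinAt)
      (fun t ht => (hder t (interior_subset ht)).mono interior_subset) fun t ht => ?_
    have := hle t (interior_subset ht)
    have hp := Real.exp_pos (-(2 * Ma) * t)
    nlinarith only [this, hp]
  intro t ht
  have h1 := hg (left_mem_Icc.mpr (ht.1.trans ht.2)) ht ht.1
  have h2 : ∑' k, ‖d t0 k‖ ^ 2 = 0 := by simp [hd, h0]
  simp only [h2, mul_zero] at h1
  have hp := Real.exp_pos (-(2 * Ma) * t)
  have h3 : ∑' k, ‖d t k‖ ^ 2 ≤ 0 := by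
    by_contra hc
    push Not at hc
    have := mul_pos hp hc
    linarith only [h1, this]
  funext k
  have h4 := ((db t ht).mono (Nat.zero_le 4)).summable_sq.le_tsum k fun _ _ => sq_nonneg _
  have h5 : ‖d t k‖ ^ 2 = 0 := le_antisymm (h4.trans h3) (sq_nonneg _)
  exact sub_eq_zero.mp (norm_eq_zero.mp (pow_eq_zero_iff two_ne_zero |>.mp h5))

lemma IsSol.restrict {a : ℝ → Z3 → C3} {t0 t1 s0 s1 : ℝ} (ha : IsSol A a t0 t1)
    (h : Icc s0 s1 ⊆ Icc t0 t1) : IsSol A a s0 s1 :=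
  ⟨fun s => (ha.bd s).imp fun _ hM t ht => hM t (h ht), fun t ht => ha.real t (h ht),
    fun t ht => ha.div t (h ht), fun k t ht => (ha.deriv k t (h ht)).mono h⟩

lemma IsSol.congr {a b : ℝ → Z3 → C3} {t0 t1 : ℝ} (ha : IsSol A a t0 t1)
    (h : ∀ t ∈ Icc t0 t1, b t = a t) : IsSol A b t0 t1 :=
  ⟨fun s => (ha.bd s).imp fun _ hM t ht => h t ht ▸ hM t ht, fun t ht => h t ht ▸ ha.real t ht,
    fun t ht => h t ht ▸ ha.div t ht, fun k t ht => by
      rw [h t ht]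
      exact (ha.deriv k t ht).congr_of_mem (fun x hx => by rw [h x hx]) ht⟩

lemma IsSol.glue {a b : ℝ → Z3 → C3} {t0 t1 t2 : ℝ} (ha : IsSol A a t0 t1) (hb : IsSol A b t1 t2)
    (h01 : t0 ≤ t1) (h12 : t1 ≤ t2) (h : b t1 = a t1) :
    IsSol A (fun t => if t ≤ t1 then a t else b t) t0 t2 := by
  set c : ℝ → Z3 → C3 := fun t => if t ≤ t1 then a t else b t with hc
  have ca : IsSol A c t0 t1 := ha.congr fun t ht => by simp [hc, ht.2]
  have cb : IsSol A c t1 t2 := hb.congr fun t ht => by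
    by_cases h' : t ≤ t1
    · have : t = t1 := le_antisymm h' ht.1
      simp [hc, this, h]
    · simp [hc, h']
  have hu : Icc t0 t2 = Icc t0 t1 ∪ Icc t1 t2 := (Icc_union_Icc_eq_Icc h01 h12).symm
  refine ⟨fun s => ?_, fun t ht => ?_, fun t ht => ?_, fun k t ht => ?_⟩
  · obtain ⟨M, hM⟩ := ca.bd s
    obtain ⟨N, hN⟩ := cb.bd s
    refine ⟨max M N, fun t ht => ?_⟩
    rcases hu ▸ ht with h' | h'
    · exact (hM t h').mono_right (le_max_left _ _)
    · exact (hN t h').mono_right (le_max_right _ _)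
  · rcases hu ▸ ht with h' | h'
    exacts [ca.real t h', cb.real t h']
  · rcases hu ▸ ht with h' | h'
    exacts [ca.div t h', cb.div t h']
  · rw [hu]
    refine HasDerivWithinAt.union ?_ ?_
    · by_cases h' : t ∈ Icc t0 t1
      · exact ca.deriv k t h'
      · exact HasFDerivWithinAt.of_notMem_closure (by rwa [isClosed_Icc.closure_eq])
    · by_cases h' : t ∈ Icc t1 t2
      · exact cb.deriv k t h'
      · exact HasFDerivWithinAt.of_notMem_closure (by rwa [isClosed_Icc.closure_eq])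

/-- The maximal solution: either global, or the lifespan bound fails near a finite time. -/
theorem Diss.maximal (hA : Diss ν A) {a0 : Z3 → C3} (da : DivFree a0) (ra : IsReal a0)
    (hr : Rapid a0) :
    ∃ a : ℝ → Z3 → C3, a 0 = a0 ∧ ((∀ T, IsSol A a 0 T) ∨
      ∃ Ts, 0 < Ts ∧ (∀ T, T < Ts → IsSol A a 0 T) ∧
        ∀ t ∈ Ico 0 Ts, ∀ X, Bd 0 (a t) X → t + life ν X ≤ Ts) := by
  classical
  set S : Set ℝ := {T | 0 ≤ T ∧ ∃ a, IsSol A a 0 T ∧ a 0 = a0} with hS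
  have ch : ∀ T, ∃ a : ℝ → Z3 → C3, T ∈ S → IsSol A a 0 T ∧ a 0 = a0 := fun T => by
    by_cases h : T ∈ S
    · obtain ⟨a, ha⟩ := h.2
      exact ⟨a, fun _ => ha⟩
    · exact ⟨0, fun h' => absurd h' h⟩
  choose f hf using ch
  have down : ∀ T ∈ S, ∀ t ∈ Icc 0 T, t ∈ S := fun T hT t ht =>
    ⟨ht.1, f T, (hf T hT).1.restrict (Icc_subset_Icc_right ht.2), (hf T hT).2⟩
  set a : ℝ → Z3 → C3 := fun t => f t t with ha
  have sol : ∀ T ∈ S, IsSol A a 0 T := fun T hT =>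
    (hf T hT).1.congr fun t ht => by
      have h1 := hf t (down T hT t ht)
      exact h1.1.unique hA ((hf T hT).1.restrict (Icc_subset_Icc_right ht.2))
        (h1.2.trans (hf T hT).2.symm) t ⟨ht.1, le_rfl⟩
  obtain ⟨X0, hX0⟩ := hr 0
  have hl : life ν X0 ∈ S := ⟨(life_pos hA.pos hX0.nonneg).le, hA.local_exists_zero da ra hr hX0⟩
  have h0S : (0 : ℝ) ∈ S := down _ hl 0 ⟨le_rfl, hl.1⟩
  have a0' : a 0 = a0 := (hf 0 h0S).2
  have neg : ∀ T, T < 0 → IsSol A a 0 T := fun T hT =>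
    (sol 0 h0S).restrict (by rw [Icc_eq_empty (by linarith)]; exact empty_subset _)
  refine ⟨a, a0', ?_⟩
  by_cases hb : BddAbove S
  · refine Or.inr ⟨sSup S, lt_of_lt_of_le (life_pos hA.pos hX0.nonneg) (le_csSup hb hl), ?_, ?_⟩
    · intro T hT
      rcases lt_or_ge T 0 with h | h
      · exact neg T h
      · obtain ⟨T', hT', hlt⟩ := exists_lt_of_lt_csSup ⟨0, h0S⟩ hT
        exact sol T (down T' hT' T ⟨h, hlt.le⟩)
    · intro t ht X hX
      obtain ⟨T', hT', hlt⟩ := exists_lt_of_lt_csSup ⟨0, h0S⟩ ht.2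
      have st := sol t (down T' hT' t ⟨ht.1, hlt.le⟩)
      have tm : t ∈ Icc 0 t := ⟨ht.1, le_rfl⟩
      obtain ⟨b, hb1, hb2⟩ := hA.local_exists (st.div t tm) (st.real t tm)
        (fun s => (st.bd s).imp fun _ hM => hM t tm) hX t
      have lp := life_pos hA.pos hX.nonneg
      refine le_csSup hb ⟨by linarith only [lp, ht.1], _, st.glue hb1 ht.1 (by linarith) hb2, ?_⟩
      simp [ht.1, a0']
  · refine Or.inl fun T => ?_
    rcases lt_or_ge T 0 with h | h
    · exact neg T h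
    · obtain ⟨T', hT', hlt⟩ := not_bddAbove_iff.mp hb T
      exact sol T (down T' hT' T ⟨h, hlt.le⟩)

end

end Pool.Agent.Work.MP_6bf1e5_an.B.G
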