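import Pool.Agent.Work.MP_6bf1e5_an.B.Final

/-!
Orthogonal projections onto curl-invariant spaces of divergence-free modes. The files of this
folder repeat the local theory with the Leray projection replaced by such a projection.
-/

open Set Complex Filter Topology
open scoped InnerProductSpace ComplexConjugate

namespace Pool.Agent.Work.MP_6bf1e5_an.B.G

noncomputable section

/-- A real orthogonal projection with divergence-free range. -/
class PJ where
  /-- The symbol. -/
  P : Z3 → C3 →L[ℂ] C3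
  sym : ∀ k u v, ⟪P k u, v⟫_ℂ = ⟪u, P k v⟫_ℂ
  idem : ∀ k v, P k (P k v) = P k v
  div : ∀ k v, dt (P k v) k = 0
  real : ∀ k v, P (-k) (cj v) = cj (P k v)

variable [PJ]

/-- The projection. -/
def LP (k : Z3) : C3 →L[ℂ] C3 := PJ.P k

/-- Vectors in the range of the projection. -/
def Fx (v : C3) (k : Z3) : Prop := LP k v = v

/-- Families in the range of the projection. -/
def DivFree (a : Z3 → C3) : Prop := ∀ k, Fx (a k) k

variable {u v : C3} {k : Z3}

lemma Fx.add (hu : Fx u k) (hv : Fx v k) : Fx (u + v) k := by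
  unfold Fx at *; rw [map_add, hu, hv]

lemma Fx.sub (hu : Fx u k) (hv : Fx v k) : Fx (u - v) k := by
  unfold Fx at *; rw [map_sub, hu, hv]

lemma Fx.smul (hu : Fx u k) (c : ℂ) : Fx (c • u) k := by
  unfold Fx at *; rw [map_smul, hu]

lemma fx_LP (k : Z3) (v : C3) : Fx (LP k v) k := PJ.idem k v

lemma LP_cj (k : Z3) (v : C3) : LP (-k) (cj v) = cj (LP k v) := PJ.real k v

lemma Fx.cj (hu : Fx u k) : Fx (cj u) (-k) := by
  unfold Fx at *; rw [LP_cj, hu]

lemma Fx.dt (hu : Fx u k) : dt u k = 0 := by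
  rw [← hu]; exact PJ.div k u

lemma DivFree.toB {a : Z3 → C3} (h : DivFree a) : B.DivFree a := fun k => (h k).dt

lemma inner_LP (hu : Fx u k) (v : C3) : ⟪u, LP k v⟫_ℂ = ⟪u, v⟫_ℂ := by
  rw [LP, ← PJ.sym]; exact congrArg (⟪·, v⟫_ℂ) hu

lemma norm_LP_le (k : Z3) (v : C3) : ‖LP k v‖ ≤ ‖v‖ := by
  have h := inner_LP (fx_LP k v) v
  have h1 : ‖LP k v‖ ^ 2 ≤ ‖LP k v‖ * ‖v‖ := by
    rw [← re_inner_self, h]
    exact (Complex.re_le_norm _).trans (norm_inner_le_norm _ _)
  nlinarith only [h1, norm_nonneg (LP k v), norm_nonneg v]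

lemma Bd_LP {s : ℕ} {a : Z3 → C3} {M : ℝ} (h : Bd s a M) : Bd s (fun k => LP k (a k)) M := by
  have := Bd.of_growth (s := s) (m := 0) (C := 1) (b := fun k => LP k (a k)) h zero_le_one
    (fun k => by simpa using norm_LP_le k (a k))
  simpa using this

end

end Pool.Agent.Work.MP_6bf1e5_an.B.G
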