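import Pool.Agent.Work.MP_6bf1e5_an.G.Proj

/-!
A semi-implicit time discretisation of the Fourier-side system and its uniform bounds.
-/

open Set Complex Filter Topology
open scoped InnerProductSpace ComplexConjugate

namespace Pool.Agent.Work.MP_6bf1e5_an.B.G

noncomputable section

variable [PJ]

/-- Admissible dissipation operators. -/
structure Diss (ν : ℝ) (A : Z3 → C3 →L[ℂ] C3) : Prop where
  pos : 0 < ν
  coer : ∀ k v, Fx v k → ν * ax k ^ 2 * ‖v‖ ^ 2 ≤ (⟪v, A k v⟫_ℂ).re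
  growth : ∃ (C : ℝ) (m : ℕ), 0 ≤ C ∧ ∀ k v, ‖A k v‖ ≤ C * w k ^ m * ‖v‖
  div : ∀ k v, Fx v k → Fx (A k v) k
  real : ∀ k v, A (-k) (cj v) = cj (A k v)

/-- The right-hand side of the Fourier-side system. -/
def FF (A : Z3 → C3 →L[ℂ] C3) (a : Z3 → C3) (k : Z3) : C3 := -(LP k (BB a a k)) - A k (a k)

variable {ν : ℝ} {A : Z3 → C3 →L[ℂ] C3}

lemma Diss.res_norm (hA : Diss ν A) {h : ℝ} (hh : 0 ≤ h) {k : Z3} {x : C3} (hx : Fx x k) :
    (1 + h * ν * ax k ^ 2) * ‖x‖ ≤ ‖x + (h : ℂ) • A k x‖ := by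
  have h1 := hA.coer k x hx
  have h2 : (⟪x, x + (h : ℂ) • A k x⟫_ℂ).re = ‖x‖ ^ 2 + h * (⟪x, A k x⟫_ℂ).re := by
    rw [inner_add_right, inner_smul_right, inner_self_eq_norm_sq_to_K]
    simp [← Complex.ofReal_pow]
  have h3 : (⟪x, x + (h : ℂ) • A k x⟫_ℂ).re ≤ ‖x‖ * ‖x + (h : ℂ) • A k x‖ :=
    (Complex.re_le_norm _).trans (norm_inner_le_norm _ _)
  rcases (norm_nonneg x).eq_or_lt with h0 | h0
  · rw [← h0, mul_zero]; exact norm_nonneg _
  · have : ‖x‖ * ((1 + h * ν * ax k ^ 2) * ‖x‖) ≤ ‖x‖ * ‖x + (h : ℂ) • A k x‖ := by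
      linarith [mul_le_mul_of_nonneg_left h1 hh]
    exact le_of_mul_le_mul_left this h0

lemma Diss.res_inj (hA : Diss ν A) {h : ℝ} (hh : 0 ≤ h) {k : Z3} {x y : C3} (hx : Fx x k)
    (hy : Fx y k) (e : x + (h : ℂ) • A k x = y + (h : ℂ) • A k y) : x = y := by
  have hd : Fx (x - y) k := hx.sub hy
  have h1 := hA.res_norm hh hd
  have h2 : x - y + (h : ℂ) • A k (x - y) = 0 := by
    rw [map_sub, smul_sub]
    calc x - y + ((h : ℂ) • A k x - (h : ℂ) • A k y)
        = (x + (h : ℂ) • A k x) - (y + (h : ℂ) • A k y) := by abel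
      _ = 0 := by rw [e, sub_self]
  rw [h2, norm_zero] at h1
  have hp : 0 < 1 + h * ν * ax k ^ 2 := by have := hA.pos; positivity
  have : ‖x - y‖ ≤ 0 := by
    by_contra hc
    push Not at hc
    have := mul_pos hp hc
    linarith
  exact sub_eq_zero.mp (norm_le_zero_iff.mp this)

lemma Diss.res_exists (hA : Diss ν A) {h : ℝ} (hh : 0 ≤ h) (k : Z3) {y : C3} (hy : Fx y k) :
    ∃ x : C3, Fx x k ∧ x + (h : ℂ) • A k x = y := by
  let S : Submodule ℂ C3 := LinearMap.eqLocus (LP k).toLinearMap LinearMap.id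
  have hS : ∀ v, v ∈ S ↔ Fx v k := fun v => Iff.rfl
  let T : C3 →ₗ[ℂ] C3 := LinearMap.id + (h : ℂ) • (A k).toLinearMap
  have hT : ∀ v, T v = v + (h : ℂ) • A k v := fun v => by simp [T]
  have hTS : ∀ v ∈ S, T v ∈ S := fun v hv => by
    rw [hS] at hv ⊢
    rw [hT]; exact hv.add ((hA.div k v hv).smul _)
  have hinj : Function.Injective (T.restrict hTS) := by
    intro x y e
    apply Subtype.ext
    have e' := congrArg Subtype.val e
    simp only [LinearMap.restrict_apply, hT] at e'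
    exact hA.res_inj hh ((hS _).mp x.2) ((hS _).mp y.2) e'
  obtain ⟨x, hx⟩ := (LinearMap.injective_iff_surjective.mp hinj) ⟨y, (hS y).mpr hy⟩
  refine ⟨x, (hS _).mp x.2, ?_⟩
  have e' := congrArg Subtype.val hx
  simpa only [LinearMap.restrict_apply, hT] using e'

/-- The resolvent on divergence-free vectors. -/
def JJ (A : Z3 → C3 →L[ℂ] C3) (h : ℝ) (k : Z3) (y : C3) : C3 :=
  Classical.epsilon fun x => Fx x k ∧ x + (h : ℂ) • A k x = y

lemma Diss.JJ_spec (hA : Diss ν A) {h : ℝ} (hh : 0 ≤ h) (k : Z3) {y : C3} (hy : Fx y k) :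
    Fx (JJ A h k y) k ∧ JJ A h k y + (h : ℂ) • A k (JJ A h k y) = y :=
  Classical.epsilon_spec (hA.res_exists hh k hy)

/-- One step of the scheme. -/
def step (A : Z3 → C3 →L[ℂ] C3) (h : ℝ) (a : Z3 → C3) (k : Z3) : C3 :=
  JJ A h k (a k - (h : ℂ) • LP k (BB a a k))

lemma Diss.step_spec (hA : Diss ν A) {h : ℝ} (hh : 0 ≤ h) {a : Z3 → C3} (da : DivFree a) (k : Z3) :
    Fx (step A h a k) k ∧
      step A h a k + (h : ℂ) • A k (step A h a k) = a k - (h : ℂ) • LP k (BB a a k) :=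
  hA.JJ_spec hh k ((da k).sub ((fx_LP _ _).smul _))

lemma Diss.step_norm (hA : Diss ν A) {h : ℝ} (hh : 0 ≤ h) {a : Z3 → C3} (da : DivFree a) (k : Z3) :
    (1 + h * ν * ax k ^ 2) * ‖step A h a k‖ ≤ ‖a k‖ + h * ‖BB a a k‖ := by
  obtain ⟨h1, h2⟩ := hA.step_spec hh da k
  refine (hA.res_norm hh h1).trans ?_
  rw [h2]
  refine (norm_sub_le _ _).trans ?_
  rw [norm_smul, Complex.norm_real, Real.norm_of_nonneg hh]
  gcongr
  exact norm_LP_le _ _

lemma Diss.step_real (hA : Diss ν A) {h : ℝ} (hh : 0 ≤ h) {a : Z3 → C3} (da : DivFree a)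
    (ra : IsReal a) (hr : Rapid a) : IsReal (step A h a) := by
  intro k
  obtain ⟨M, hM⟩ := hr 1
  obtain ⟨h1, h2⟩ := hA.step_spec hh da k
  obtain ⟨h3, h4⟩ := hA.step_spec hh da (-k)
  refine hA.res_inj hh h3 h1.cj ?_
  rw [h4, hA.real, ra k, BB_real (hM.mono (Nat.zero_le 1)) hM ra ra k, LP_cj]
  have := congrArg cj h2
  simpa [cj_smul] using this.symm

lemma Diss.step_bd (hA : Diss ν A) {h : ℝ} (hh : 0 ≤ h) {a : Z3 → C3} (da : DivFree a)
    (hr : Rapid a) {s : ℕ} {M U : ℝ} (h0 : Bd 0 a M) (hU : Bd s (wt (h * ν / 2) a) U) :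
    Bd s (wt (h * ν / 2) (step A h a)) ((1 + h * rate ν s M) * U) := by
  have hν := hA.pos
  have hc : 0 ≤ h * ν / 2 := by positivity
  obtain ⟨N, hN⟩ := hr (s + 1)
  have hB := Bd_BB_tame h0 (Bd.of_tsum hN.summable le_rfl)
  have hs : Summable fun k => w k ^ s * ‖a k‖ := (hN.mono (Nat.le_succ s)).summable
  set K := 3 * 2 ^ s * M with hK
  have hK0 : 0 ≤ K := by have := h0.nonneg; positivity
  intro F
  calc ∑ k ∈ F, w k ^ s * ‖wt (h * ν / 2) (step A h a) k‖
      ≤ ∑ k ∈ F, (w k ^ s * ‖a k‖ + h * (w k ^ s * ‖BB a a k‖)) := by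
        refine Finset.sum_le_sum fun k _ => ?_
        rw [norm_wt hc]
        have := w_pos k
        have e := hA.step_norm hh da k
        have e2 : (1 + h * ν / 2 * ax k ^ 2) * ‖step A h a k‖ ≤
            (1 + h * ν * ax k ^ 2) * ‖step A h a k‖ := by
          gcongr; linarith
        calc w k ^ s * ((1 + h * ν / 2 * ax k ^ 2) * ‖step A h a k‖)
            ≤ w k ^ s * (‖a k‖ + h * ‖BB a a k‖) := by gcongr; exact e2.trans e
          _ = _ := by ring
    _ ≤ (∑' k, w k ^ s * ‖a k‖) + h * (K * ∑' k, w k ^ (s + 1) * ‖a k‖) := by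
        rw [Finset.sum_add_distrib, ← Finset.mul_sum]
        exact add_le_add (hs.sum_le_tsum F fun k _ => wn_nonneg s a k)
          (mul_le_mul_of_nonneg_left (hB F) hh)
    _ = ∑' k, (w k ^ s * ‖a k‖ + h * (K * (w k ^ (s + 1) * ‖a k‖))) := by
        rw [hs.tsum_add ((hN.summable.mul_left K).mul_left h), tsum_mul_left, tsum_mul_left]
    _ ≤ ∑' k, (1 + h * rate ν s M) * (w k ^ s * ‖wt (h * ν / 2) a k‖) := by
        refine (hs.add ((hN.summable.mul_left K).mul_left h)).tsum_le_tsum (fun k => ?_)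
          (hU.summable.mul_left _)
        rw [norm_wt hc]
        have hw := w_pos k
        have hx := ax_nonneg k
        have e1 : K * ax k ≤ ν / 2 * ax k ^ 2 + K ^ 2 / (2 * ν) := by
          have : ν / 2 * ax k ^ 2 + K ^ 2 / (2 * ν) - K * ax k = (ν * ax k - K) ^ 2 / (2 * ν) := by
            field_simp; ring
          have : 0 ≤ (ν * ax k - K) ^ 2 / (2 * ν) := by positivity
          linarith
        have hr0 : 0 ≤ rate ν s M := rate_nonneg hν s h0.nonneg
        have e2 : 1 + h * (K * w k) ≤ (1 + h * rate ν s M) * (1 + h * ν / 2 * ax k ^ 2) := by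
          have e3 : rate ν s M = K + K ^ 2 / (2 * ν) := rfl
          have e4 : 0 ≤ h * rate ν s M * (h * ν / 2 * ax k ^ 2) := by positivity
          have e5 : h * (K * w k) ≤ h * (rate ν s M + ν / 2 * ax k ^ 2) := by
            refine mul_le_mul_of_nonneg_left ?_ hh
            rw [e3, w]; linarith only [e1]
          linarith only [e4, e5]
        calc w k ^ s * ‖a k‖ + h * (K * (w k ^ (s + 1) * ‖a k‖))
            = (1 + h * (K * w k)) * (w k ^ s * ‖a k‖) := by ring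
          _ ≤ ((1 + h * rate ν s M) * (1 + h * ν / 2 * ax k ^ 2)) * (w k ^ s * ‖a k‖) := by
              gcongr
          _ = _ := by ring
    _ ≤ (1 + h * rate ν s M) * U := by
        rw [tsum_mul_left]
        have hr0 : 0 ≤ rate ν s M := rate_nonneg hν s h0.nonneg
        exact mul_le_mul_of_nonneg_left hU.tsum_le (by positivity)

lemma Diss.step_rapid (hA : Diss ν A) {h : ℝ} (hh : 0 ≤ h) {a : Z3 → C3} (da : DivFree a)
    (hr : Rapid a) : Rapid (step A h a) := by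
  intro s
  have hc : 0 ≤ h * ν / 2 := by have := hA.pos; positivity
  obtain ⟨M, hM⟩ := hr 0
  obtain ⟨M1, hM1⟩ := hr s
  obtain ⟨M2, hM2⟩ := hr (s + 2)
  exact ⟨_, (hA.step_bd hh da hr hM (hM1.to_wt hc hM2)).of_wt hc⟩

/-- The iterates of the scheme. -/
def sq (A : Z3 → C3 →L[ℂ] C3) (h : ℝ) (a : Z3 → C3) (n : ℕ) : Z3 → C3 := (step A h)^[n] a

lemma sq_succ (h : ℝ) (a : Z3 → C3) (n : ℕ) : sq A h a (n + 1) = step A h (sq A h a n) :=
  Function.iterate_succ_apply' _ _ _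

lemma Diss.sq_props (hA : Diss ν A) {h : ℝ} (hh : 0 ≤ h) {a : Z3 → C3} (da : DivFree a)
    (ra : IsReal a) (hr : Rapid a) (n : ℕ) :
    DivFree (sq A h a n) ∧ IsReal (sq A h a n) ∧ Rapid (sq A h a n) := by
  induction n with
  | zero => exact ⟨da, ra, hr⟩
  | succ n ih =>
    obtain ⟨h1, h2, h3⟩ := ih
    rw [sq_succ]
    exact ⟨fun k => (hA.step_spec hh h1 k).1, hA.step_real hh h1 h2 h3, hA.step_rapid hh h1 h3⟩

lemma Diss.sq_bd_zero (hA : Diss ν A) {h : ℝ} (hh : 0 ≤ h) {a : Z3 → C3} (da : DivFree a)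
    (ra : IsReal a) (hr : Rapid a) {M : ℝ} (hM : Bd 0 (wt (h * ν / 2) a) M) (n : ℕ)
    (hn : n * h * rate ν 0 (2 * M) ≤ 1 / 2) :
    Bd 0 (wt (h * ν / 2) (sq A h a n)) (Real.exp (n * h * rate ν 0 (2 * M)) * M) := by
  have hν := hA.pos
  have hc : 0 ≤ h * ν / 2 := by positivity
  have hM0 := hM.nonneg
  have hr0 : 0 ≤ rate ν 0 (2 * M) := rate_nonneg hν 0 (by positivity)
  induction n with
  | zero => simpa [sq] using hM
  | succ n ih =>
    have hn' : n * h * rate ν 0 (2 * M) ≤ 1 / 2 := by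
      refine le_trans ?_ hn
      push_cast
      gcongr
      linarith only []
    have ih' := ih hn'
    obtain ⟨h1, -, h3⟩ := hA.sq_props hh da ra hr n
    have e : Real.exp (n * h * rate ν 0 (2 * M)) ≤ 2 := by
      calc Real.exp (n * h * rate ν 0 (2 * M)) ≤ Real.exp (1 / 2) := Real.exp_le_exp.mpr hn'
        _ ≤ 2 := by
          have := Real.exp_bound_div_one_sub_of_interval (x := 1 / 2) (by norm_num) (by norm_num)
          norm_num at this ⊢; exact this
    have h0 : Bd 0 (sq A h a n) (2 * M) := (ih'.of_wt hc).mono_right (by gcongr)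
    rw [sq_succ]
    refine (hA.step_bd hh h1 h3 h0 ih').mono_right ?_
    rw [← mul_assoc]
    gcongr
    calc (1 + h * rate ν 0 (2 * M)) * Real.exp (n * h * rate ν 0 (2 * M))
        ≤ Real.exp (h * rate ν 0 (2 * M)) * Real.exp (n * h * rate ν 0 (2 * M)) := by
          gcongr
          linarith only [Real.add_one_le_exp (h * rate ν 0 (2 * M))]
      _ = _ := by rw [← Real.exp_add]; congr 1; push_cast; ring

lemma Diss.sq_bd_zero' (hA : Diss ν A) {h : ℝ} (hh : 0 ≤ h) {a : Z3 → C3} (da : DivFree a)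
    (ra : IsReal a) (hr : Rapid a) {M : ℝ} (hM : Bd 0 (wt (h * ν / 2) a) M) (n : ℕ)
    (hn : n * h * rate ν 0 (2 * M) ≤ 1 / 2) : Bd 0 (sq A h a n) (2 * M) := by
  have hc : 0 ≤ h * ν / 2 := by have := hA.pos; positivity
  refine ((hA.sq_bd_zero hh da ra hr hM n hn).of_wt hc).mono_right ?_
  have hM0 := hM.nonneg
  gcongr
  calc Real.exp (n * h * rate ν 0 (2 * M)) ≤ Real.exp (1 / 2) := Real.exp_le_exp.mpr hn
    _ ≤ 2 := by
      have := Real.exp_bound_div_one_sub_of_interval (x := 1 / 2) (by norm_num) (by norm_num)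
      norm_num at this ⊢; exact this

lemma Diss.sq_bd (hA : Diss ν A) {h : ℝ} (hh : 0 ≤ h) {a : Z3 → C3} (da : DivFree a)
    (ra : IsReal a) (hr : Rapid a) {M : ℝ} (hM : Bd 0 (wt (h * ν / 2) a) M) {s : ℕ} {U : ℝ}
    (hU : Bd s (wt (h * ν / 2) a) U) (n : ℕ) (hn : n * h * rate ν 0 (2 * M) ≤ 1 / 2) :
    Bd s (wt (h * ν / 2) (sq A h a n)) (Real.exp (n * h * rate ν s (2 * M)) * U) := by
  have hν := hA.pos
  have hM0 := hM.nonneg
  have hr0 : 0 ≤ rate ν 0 (2 * M) := rate_nonneg hν 0 (by positivity)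
  induction n with
  | zero => simpa [sq] using hU
  | succ n ih =>
    have hn' : n * h * rate ν 0 (2 * M) ≤ 1 / 2 := by
      refine le_trans ?_ hn
      push_cast
      gcongr
      linarith only []
    have ih' := ih hn'
    obtain ⟨h1, -, h3⟩ := hA.sq_props hh da ra hr n
    have h0 := hA.sq_bd_zero' hh da ra hr hM n hn'
    rw [sq_succ]
    refine (hA.step_bd hh h1 h3 h0 ih').mono_right ?_
    rw [← mul_assoc]
    have := hU.nonneg
    gcongr
    calc (1 + h * rate ν s (2 * M)) * Real.exp (n * h * rate ν s (2 * M))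
        ≤ Real.exp (h * rate ν s (2 * M)) * Real.exp (n * h * rate ν s (2 * M)) := by
          gcongr
          linarith only [Real.add_one_le_exp (h * rate ν s (2 * M))]
      _ = _ := by rw [← Real.exp_add]; congr 1; push_cast; ring

/-- Uniform bounds for the scheme on the time interval `[0, 2 * life]`. -/
lemma Diss.scheme_bounds (hA : Diss ν A) {a : Z3 → C3} (da : DivFree a) (ra : IsReal a)
    (hr : Rapid a) {X : ℝ} (hX : Bd 0 a X) :
    ∃ h0 : ℝ, 0 < h0 ∧ ∃ M : ℕ → ℝ, ∀ s, ∀ h, 0 ≤ h → h ≤ h0 → ∀ n : ℕ, n * h ≤ 2 * life ν X →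
      Bd s (sq A h a n) (M s) := by
  have hν := hA.pos
  choose N hN using hr
  have hN2 := (hN 2).nonneg
  have hX0 := hX.nonneg
  have hrp := rate_pos hν hX0
  set h0 := 1 / (ν * (N 2 + 1)) with hh0
  have h0pos : 0 < h0 := by positivity
  refine ⟨h0, h0pos, fun s => Real.exp (2 * life ν X * rate ν s (2 * (X + 1))) *
    (N s + h0 * ν / 2 * N (s + 2)), fun s h hh hle n hn => ?_⟩
  have hc : 0 ≤ h * ν / 2 := by positivity
  have hM : Bd 0 (wt (h * ν / 2) a) (X + 1) := by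
    refine (hX.to_wt hc (hN 2)).mono_right ?_
    have : h * ν / 2 * N 2 ≤ h0 * ν / 2 * (N 2 + 1) := by gcongr; linarith only []
    have e : h0 * ν / 2 * (N 2 + 1) = 1 / 2 := by rw [hh0]; field_simp
    linarith only [this, e]
  have hn' : n * h * rate ν 0 (2 * (X + 1)) ≤ 1 / 2 := by
    calc n * h * rate ν 0 (2 * (X + 1)) ≤ 2 * life ν X * rate ν 0 (2 * (X + 1)) := by gcongr
      _ = 1 / 2 := by unfold life; field_simp; norm_num
  refine ((hA.sq_bd hh da ra (fun s => ⟨_, hN s⟩) hM ((hN s).to_wt hc (hN (s + 2))) n hn').of_wt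
    hc).mono_right ?_
  have := (hN s).nonneg
  have := (hN (s + 2)).nonneg
  have := rate_nonneg hν s (M := 2 * (X + 1)) (by positivity)
  change Real.exp (n * h * rate ν s (2 * (X + 1))) * (N s + h * ν / 2 * N (s + 2)) ≤
    Real.exp (2 * life ν X * rate ν s (2 * (X + 1))) * (N s + h0 * ν / 2 * N (s + 2))
  gcongr

end

end Pool.Agent.Work.MP_6bf1e5_an.B.G
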